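import Mathlib
import Pool.Agent.MP_a2d820_lc.h69.Levels

-- ======== part 0: formerly Pool.Agent.MP_a2d820_lc.h31u.Hit
section MrgPart0

/-!
Random keys: a family of small certificates that is always hit inside a fixed set of regions is,
for most keys, hit by a small set of regions.
-/

set_option autoImplicit false

namespace Pool.Agent.MP_a2d820_lc.h31u

open Finset

variable {ι : Type} [DecidableEq ι] {Key : ι → Type}

/-- Certificates: the literals used positively and those used negatively. -/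
abbrev Ct (Key : ι → Type) := Finset (Σ R, Key R) × Finset (Σ R, Key R)

/-- The certificate has the right keys on its positive part and no negative hit in `F`. -/
def Live (C : Set (Ct Key)) (κ : ∀ R, Key R) (F : Finset ι) (c : Ct Key) : Prop :=
  c ∈ C ∧ (∀ l ∈ c.1, κ l.1 = l.2) ∧ ∀ l ∈ c.2, l.1 ∈ F → κ l.1 ≠ l.2

omit [DecidableEq ι] in
theorem Live.anti {C : Set (Ct Key)} {κ : ∀ R, Key R} {F F' : Finset ι} {c : Ct Key}
    (h : Live C κ F' c) (hF : F ⊆ F') : Live C κ F c :=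
  ⟨h.1, h.2.1, fun l hl hl' => h.2.2 l hl (hF hl')⟩

/-- The regions added in one round. -/
def new (Cur : Finset ι) (c : Ct Key) (R : ι) : Finset ι := insert R (c.1.image Sigma.fst ∩ Cur)

/-- `J` rounds, each of which reveals the key of one region of `S`. -/
def Chain (C : Set (Ct Key)) (rk : Ct Key → ℕ) (Cur : Finset ι) (κ : ∀ R, Key R) :
    ℕ → Finset ι → Finset ι → Prop
  | 0, _, S => S = ∅
  | J + 1, F, S => (∀ R ∈ S, R ∈ Cur ∧ R ∉ F) ∧ ∃ c, Live C κ F c ∧
      (∀ c', Live C κ F c' → rk c ≤ rk c') ∧ ∃ l ∈ c.2, κ l.1 = l.2 ∧ l.1 ∈ S ∧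
        Chain C rk Cur κ J (F ∪ new Cur c l.1) (S.erase l.1)

variable {C : Set (Ct Key)} {rk : Ct Key → ℕ} {Cur : Finset ι} {D : ℕ}

theorem Chain.sub {κ : ∀ R, Key R} {J : ℕ} {F S : Finset ι} (h : Chain C rk Cur κ J F S) :
    ∀ R ∈ S, R ∈ Cur ∧ R ∉ F := by
  cases J with
  | zero =>
    obtain rfl : S = ∅ := h
    simp
  | succ J => exact h.1

theorem Chain.card_eq {κ : ∀ R, Key R} {J : ℕ} {F S : Finset ι} (h : Chain C rk Cur κ J F S) :
    S.card = J := by
  induction J generalizing F S with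
  | zero =>
    obtain rfl : S = ∅ := h
    rfl
  | succ J ih =>
    obtain ⟨-, c, -, -, l, -, -, h1, h2⟩ := h
    rw [← ih h2, card_erase_add_one h1]

theorem exists_chain (hD : ∀ c ∈ C, c.1.card ≤ D) (κ : ∀ R, Key R) (J : ℕ) (F : Finset ι)
    (h : ∀ c, Live C κ F c → ∃ l ∈ c.2, κ l.1 = l.2 ∧ l.1 ∈ Cur) :
    (∃ F' ⊆ Cur, F'.card ≤ J * (D + 1) ∧ ∀ c, ¬Live C κ (F ∪ F') c) ∨
      ∃ S, Chain C rk Cur κ J F S := by
  induction J generalizing F with
  | zero => exact Or.inr ⟨∅, rfl⟩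
  | succ J ih =>
    by_cases h0 : ∃ c, Live C κ F c
    · obtain ⟨c, hc, hm⟩ : ∃ c, Live C κ F c ∧ ∀ c', Live C κ F c' → rk c ≤ rk c' := by
        obtain ⟨c, hc⟩ := h0
        exact ⟨_, Function.argminOn_mem rk {c | Live C κ F c} ⟨c, hc⟩, fun c' hc' =>
          Function.argminOn_le rk {c | Live C κ F c} hc'⟩
      obtain ⟨l, h1, h2, h3⟩ := h c hc
      have h4 : l.1 ∉ F := fun h4 => hc.2.2 l h1 h4 h2
      rcases ih (F ∪ new Cur c l.1) fun c' hc' => h c' (hc'.anti subset_union_left) with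
        ⟨F', a1, a2, a3⟩ | ⟨S, hS⟩
      · refine Or.inl ⟨new Cur c l.1 ∪ F', union_subset
          (insert_subset h3 inter_subset_right) a1, ?_, by rwa [← union_assoc]⟩
        have h5 := card_union_le (new Cur c l.1) F'
        have h6 := card_insert_le l.1 (c.1.image Sigma.fst ∩ Cur)
        have h7 := (card_le_card (inter_subset_left (s₁ := c.1.image Sigma.fst) (s₂ := Cur))).trans
          (card_image_le.trans (hD c hc.1))
        rw [Nat.succ_mul]
        unfold new at h5 ⊢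
        omega
      · have h5 : l.1 ∉ S := fun h5 => (hS.sub _ h5).2 (by simp [new])
        refine Or.inr ⟨insert l.1 S, fun R hR => ?_, c, hc, hm, l, h1, h2, mem_insert_self _ _,
          by rwa [erase_insert h5]⟩
        rcases mem_insert.1 hR with rfl | hR
        · exact ⟨h3, h4⟩
        · exact ⟨(hS.sub R hR).1, fun h6 => (hS.sub R hR).2 (mem_union_left _ h6)⟩
    · exact Or.inl ⟨∅, empty_subset _, by simp, fun c hc => h0 ⟨c, by simpa using hc⟩⟩

variable [Fintype ι] [∀ R, Fintype (Key R)] [∀ R, DecidableEq (Key R)]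

open Classical in
theorem card_fiber (hrk : Function.Injective rk) (hD : ∀ c ∈ C, c.2.card ≤ D)
    (hd : ∀ c ∈ C, Disjoint c.1 c.2) (J : ℕ) (F S : Finset ι) (κ₀ : ∀ R, Key R) :
    #{κ : ∀ R, Key R | (∀ R ∉ S, κ R = κ₀ R) ∧ Chain C rk Cur κ J F S} ≤ D ^ J := by
  induction J generalizing F S κ₀ with
  | zero =>
    refine card_le_one.2 fun a ha b hb => ?_
    simp only [mem_filter, mem_univ, true_and, Chain] at ha hb
    funext R
    rw [ha.1 R (by simp [ha.2]), hb.1 R (by simp [hb.2])]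
  | succ J ih =>
    have key : ∀ (κ κ' : ∀ R, Key R) (c : Ct Key) (l : Σ R, Key R), (∀ R ∉ S, κ R = κ' R) →
        (∀ R ∈ S, R ∈ Cur ∧ R ∉ F) → Live C κ F c → l ∈ c.2 → κ l.1 = l.2 →
        Chain C rk Cur κ J (F ∪ new Cur c l.1) (S.erase l.1) → Live C κ' F c := by
      intro κ κ' c l h1 h2 hc h3 h4 h5
      refine ⟨hc.1, fun m hm => ?_, fun m hm hm' => ?_⟩
      · rw [← h1 m.1 fun hS => ?_, hc.2.1 m hm]
        by_cases e : m.1 = l.1
        · have e' : m = l := by
            obtain ⟨m₁, m₂⟩ := m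
            obtain ⟨l₁, l₂⟩ := l
            obtain rfl : m₁ = l₁ := e
            rw [← show κ m₁ = m₂ from hc.2.1 _ hm, ← show κ m₁ = l₂ from h4]
          exact disjoint_left.1 (hd c hc.1) hm (e' ▸ h3)
        · refine (h5.sub _ (mem_erase.2 ⟨e, hS⟩)).2 (mem_union_right _ (mem_insert_of_mem ?_))
          exact mem_inter.2 ⟨mem_image_of_mem _ hm, (h2 _ hS).1⟩
      · rw [← h1 m.1 fun hS => (h2 _ hS).2 hm']
        exact hc.2.2 m hm hm'
    rcases ({κ : ∀ R, Key R | (∀ R ∉ S, κ R = κ₀ R) ∧ Chain C rk Cur κ (J + 1) F S} :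
      Finset _).eq_empty_or_nonempty with h | ⟨κ₁, h₁⟩
    · rw [h]; simp
    obtain ⟨a0, a1, c₁, a2, a3, l₁, a4, a5, -, a7⟩ := (mem_filter.1 h₁).2
    have hsub : ({κ : ∀ R, Key R | (∀ R ∉ S, κ R = κ₀ R) ∧ Chain C rk Cur κ (J + 1) F S} :
        Finset _) ⊆ c₁.2.biUnion fun l => {κ : ∀ R, Key R |
          (∀ R ∉ S.erase l.1, κ R = Function.update κ₀ l.1 l.2 R) ∧
            Chain C rk Cur κ J (F ∪ new Cur c₁ l.1) (S.erase l.1)} := by
      intro κ hκ
      obtain ⟨b0, -, c, b2, b3, l, b4, b5, -, b7⟩ := (mem_filter.1 hκ).2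
      have e : c = c₁ := hrk (le_antisymm
        (b3 _ (key κ₁ κ c₁ l₁ (fun R hR => (a0 R hR).trans (b0 R hR).symm) a1 a2 a4 a5 a7))
        (a3 _ (key κ κ₁ c l (fun R hR => (b0 R hR).trans (a0 R hR).symm) a1 b2 b4 b5 b7)))
      subst e
      refine mem_biUnion.2 ⟨l, b4, mem_filter.2 ⟨mem_univ _, fun R hR => ?_, b7⟩⟩
      by_cases e : R = l.1
      · subst e
        rw [Function.update_self, b5]
      · rw [Function.update_of_ne e]
        exact b0 R fun h => hR (mem_erase.2 ⟨e, h⟩)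
    refine (card_le_card hsub).trans (card_biUnion_le.trans ?_)
    refine (sum_le_card_nsmul _ _ _ fun l _ => ih _ _ _).trans ?_
    rw [smul_eq_mul, pow_succ']
    exact Nat.mul_le_mul_right _ (hD _ a2.1)

open Classical in
theorem card_chain (hrk : Function.Injective rk) (hD : ∀ c ∈ C, c.2.card ≤ D)
    (hd : ∀ c ∈ C, Disjoint c.1 c.2) (J : ℕ) (Λ : Finset ι) (Cu Lo : (∀ R, Key R) → Finset ι)
    (hCu : ∀ κ, Cu κ ⊆ Λ)
    (hinv : ∀ κ κ' : ∀ R, Key R, (∀ R ∉ Λ, κ R = κ' R) → Cu κ = Cu κ' ∧ Lo κ = Lo κ')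
    (hD0 : 0 < D) (hq : ∀ R ∈ Λ, 2 * D * Λ.card ≤ Fintype.card (Key R)) :
    #{κ : ∀ R, Key R | ∃ S, Chain C rk (Cu κ) κ J (Lo κ) S} * 2 ^ J ≤
      Fintype.card (∀ R, Key R) := by
  have h1 : ∀ S ∈ Λ.powersetCard J, #{κ : ∀ R, Key R | Chain C rk (Cu κ) κ J (Lo κ) S} *
      (2 * D * Λ.card) ^ J ≤ Fintype.card (∀ R, Key R) * D ^ J := by
    intro S hS
    obtain ⟨hS, hJ⟩ := mem_powersetCard.1 hS
    refine card_mul_le_card_mul (fun κ κ₀ : ∀ R, Key R => ∀ R ∉ S, κ R = κ₀ R)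
      (fun κ _ => ?_) fun κ₀ _ => ?_
    · have h2 : (Fintype.piFinset fun R => if R ∈ S then univ else {κ R}) ⊆
          (univ : Finset (∀ R, Key R)).bipartiteAbove
            (fun κ κ₀ : ∀ R, Key R => ∀ R ∉ S, κ R = κ₀ R) κ := by
        intro κ₀ h
        refine (mem_bipartiteAbove _).2 ⟨mem_univ _, fun R hR => ?_⟩
        have := Fintype.mem_piFinset.1 h R
        rw [if_neg hR, mem_singleton] at this
        exact this.symm
      refine le_trans ?_ (card_le_card h2)
      rw [Fintype.card_piFinset, ← hJ, ← prod_const, ← prod_ite_mem_eq]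
      refine prod_le_prod' fun R _ => ?_
      split_ifs with h
      · exact hq R (hS h)
      · simp
    · refine le_trans (card_le_card fun κ hκ => ?_)
        (card_fiber (Cur := Cu κ₀) hrk hD hd J (Lo κ₀) S κ₀)
      obtain ⟨h3, h4⟩ := (mem_bipartiteBelow _).1 hκ
      obtain ⟨h5, h6⟩ := hinv κ κ₀ fun R hR => h4 R fun h => hR (hS h)
      exact mem_filter.2 ⟨mem_univ _, h4, h5 ▸ h6 ▸ (mem_filter.1 h3).2⟩
  have h2 : ({κ : ∀ R, Key R | ∃ S, Chain C rk (Cu κ) κ J (Lo κ) S} : Finset _) ⊆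
      (Λ.powersetCard J).biUnion fun S => {κ : ∀ R, Key R | Chain C rk (Cu κ) κ J (Lo κ) S} := by
    intro κ hκ
    obtain ⟨S, hS⟩ := (mem_filter.1 hκ).2
    exact mem_biUnion.2 ⟨S, mem_powersetCard.2 ⟨fun R hR => hCu κ (hS.sub R hR).1, hS.card_eq⟩,
      mem_filter.2 ⟨mem_univ _, hS⟩⟩
  have h3 := Nat.mul_le_mul_right ((2 * D * Λ.card) ^ J) ((card_le_card h2).trans card_biUnion_le)
  rw [sum_mul] at h3
  have h4 := h3.trans (sum_le_card_nsmul _ _ _ h1)
  rw [card_powersetCard, smul_eq_mul] at h4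
  have h5 := h4.trans (Nat.mul_le_mul_right _ (Nat.choose_le_pow _ _))
  rcases Nat.eq_zero_or_pos (Λ.card ^ J) with h6 | h6
  · have h7 : Λ.powersetCard J = ∅ := by
      rw [← card_eq_zero, card_powersetCard]
      exact Nat.eq_zero_of_le_zero (h6 ▸ Nat.choose_le_pow _ _)
    rw [h7, biUnion_empty, subset_empty] at h2
    rw [h2]
    simp
  · refine Nat.le_of_mul_le_mul_right (c := D ^ J * Λ.card ^ J) ?_
      (Nat.mul_pos (Nat.pow_pos hD0) h6)
    rw [mul_pow, mul_pow] at h5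
    calc _ = _ := by ring
      _ ≤ _ := h5
      _ = _ := by ring

/-- If every point is good for at least half of the samples, few samples serve all points. -/
theorem exists_cover {Z Ω : Type} [Fintype Ω] [Nonempty Ω] (bad : Z → Ω → Prop)
    [∀ z ω, Decidable (bad z ω)] (h : ∀ z, #{ω | bad z ω} * 2 ≤ Fintype.card Ω) (m : ℕ)
    (T : Finset Z) (hT : T.card < 2 ^ m) :
    ∃ S : Finset Ω, S.card ≤ m ∧ ∀ z ∈ T, ∃ ω ∈ S, ¬bad z ω := by
  classical
  induction m generalizing T with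
  | zero =>
    obtain rfl : T = ∅ := by simpa using hT
    exact ⟨∅, le_rfl, by simp⟩
  | succ m ih =>
    obtain ⟨ω, hω⟩ : ∃ ω, #{z ∈ T | bad z ω} * 2 ≤ T.card := by
      by_contra hc
      push Not at hc
      have h1 : ∑ z ∈ T, #{ω | bad z ω} = ∑ ω, #{z ∈ T | bad z ω} :=
        sum_card_bipartiteAbove_eq_sum_card_bipartiteBelow (s := T) (t := univ) bad
      have h2 := sum_le_card_nsmul T _ _ fun z _ => h z
      have h3 := sum_lt_sum_of_nonempty (univ_nonempty (α := Ω)) fun ω _ => hc ω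
      rw [← sum_mul, h1] at h2
      rw [← sum_mul, sum_const, card_univ] at h3
      simp only [smul_eq_mul] at h2 h3
      rw [mul_comm T.card] at h2
      omega
    obtain ⟨S, h1, h2⟩ := ih {z ∈ T | bad z ω} (by rw [pow_succ] at hT; omega)
    refine ⟨insert ω S, (card_insert_le _ _).trans (by omega), fun z hz => ?_⟩
    by_cases hb : bad z ω
    · obtain ⟨ω', h3, h4⟩ := h2 z (mem_filter.2 ⟨hz, hb⟩)
      exact ⟨ω', mem_insert_of_mem h3, h4⟩
    · exact ⟨ω, mem_insert_self _ _, hb⟩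

end Pool.Agent.MP_a2d820_lc.h31u

end MrgPart0

-- ======== part 1: formerly Pool.Agent.MP_a2d820_lc.h31u.Core
section MrgPart1

/-!
Self-referential systems of regions with random keys: for most keys, acceptance and rejection of
every region have small witnesses.
-/

set_option autoImplicit false

namespace Pool.Agent.MP_a2d820_lc.h31u

open Finset

variable {V ι : Type} {Key : ι → Type}

/-- The bit stored at a code position. -/
def bit (acc : (V → Bool) → (∀ R, Key R) → ι → Prop) (z : V → Bool) (κ : ∀ R, Key R)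
    (l : Σ R, Key R) : Prop := κ l.1 = l.2 ∧ acc z κ l.1

/-- Acceptance of a region is certified by few base bits and few code bits of lower levels. -/
def Sys (acc : (V → Bool) → (∀ R, Key R) → ι → Prop) (lev : ι → ℕ) (t : ℕ) : Prop :=
  ∀ z κ R, acc z κ R → ∃ (E : Finset V) (c : Ct Key), E.card ≤ t ∧ c.1.card ≤ t ∧ c.2.card ≤ t ∧
    (∀ l ∈ c.1, lev l.1 < lev R ∧ bit acc z κ l) ∧ (∀ l ∈ c.2, lev l.1 < lev R ∧ ¬bit acc z κ l) ∧
    ∀ z' κ', (∀ v ∈ E, z' v = z v) → (∀ l ∈ c.1, bit acc z' κ' l) →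
      (∀ l ∈ c.2, ¬bit acc z' κ' l) → acc z' κ' R

/-- The expanded certificates of a region. -/
def SC (acc : (V → Bool) → (∀ R, Key R) → ι → Prop) (lev : ι → ℕ) (D : ℕ) (z : V → Bool)
    (R : ι) : Set (Ct Key) :=
  {c | c.1.card ≤ D ∧ c.2.card ≤ D ∧ Disjoint c.1 c.2 ∧ (∀ l ∈ c.2, lev l.1 < lev R) ∧
    ∃ E : Finset V, E.card ≤ D ∧ ∀ z' κ', (∀ v ∈ E, z' v = z v) → (∀ l ∈ c.1, κ' l.1 = l.2) →
      (∀ l ∈ c.2, ¬bit acc z' κ' l) → acc z' κ' R}

/-- Some expanded certificate is available and has no negative hit in `F`. -/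
def Gam (acc : (V → Bool) → (∀ R, Key R) → ι → Prop) (lev : ι → ℕ) (D : ℕ) (κ : ∀ R, Key R)
    (R : ι) (F : Finset ι) (z : V → Bool) : Prop := ∃ c, Live (SC acc lev D z R) κ F c

/-- Every rejecting region is blocked by a small set of accepting regions. -/
def Blocked (acc : (V → Bool) → (∀ R, Key R) → ι → Prop) (lev : ι → ℕ) (D K : ℕ)
    (z : V → Bool) (κ : ∀ R, Key R) : Prop :=
  ∀ R, ¬acc z κ R → ∃ B : Finset ι, B.card ≤ K ∧ (∀ R' ∈ B, acc z κ R' ∧ lev R' < lev R) ∧
    ¬Gam acc lev D κ R B z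

variable {acc : (V → Bool) → (∀ R, Key R) → ι → Prop} {lev : ι → ℕ} {t g D : ℕ}

theorem Sys.loc (h : Sys acc lev t) (z : V → Bool) (n : ℕ) (R : ι) (hR : lev R ≤ n)
    (κ κ' : ∀ R, Key R) (hκ : ∀ R, lev R < n → κ R = κ' R) : acc z κ R → acc z κ' R := by
  induction hn : lev R using Nat.strong_induction_on generalizing R κ κ' with
  | _ m ih =>
    intro ha
    obtain ⟨E, c, -, -, -, h1, h2, h3⟩ := h z κ R ha
    refine h3 z κ' (fun _ _ => rfl) (fun l hl => ?_) fun l hl hb => ?_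
    · obtain ⟨a1, a2, a3⟩ := h1 l hl
      exact ⟨(hκ _ (by omega)).symm.trans a2, ih _ (by omega) _ (by omega) κ κ' hκ rfl a3⟩
    · obtain ⟨a1, a2⟩ := h2 l hl
      exact a2 ⟨(hκ _ (by omega)).trans hb.1,
        ih _ (by omega) _ (by omega) κ' κ (fun R hR => (hκ R hR).symm) rfl hb.2⟩

theorem Sys.cert (h : Sys acc lev t) (hg : 2 * t ≤ g) (hg1 : 1 ≤ g) (z : V → Bool)
    (κ : ∀ R, Key R) (n : ℕ) (R : ι) (hR : lev R < n) (ha : acc z κ R) :
    ∃ c ∈ SC acc lev (g ^ n) z R, (∀ l ∈ c.1, bit acc z κ l) ∧ ∀ l ∈ c.2, ¬bit acc z κ l := by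
  classical
  induction n generalizing R with
  | zero => omega
  | succ n ih =>
    obtain ⟨E, c, h1, h2, h3, h4, h5, h6⟩ := h z κ R ha
    have h7 : ∀ l : Σ R, Key R, ∃ (c' : Ct Key) (E' : Finset V), l ∈ c.1 → c'.1.card ≤ g ^ n ∧
        c'.2.card ≤ g ^ n ∧ E'.card ≤ g ^ n ∧ (∀ l' ∈ c'.2, lev l'.1 < lev l.1) ∧
        (∀ z' κ', (∀ v ∈ E', z' v = z v) → (∀ l ∈ c'.1, κ' l.1 = l.2) →
          (∀ l ∈ c'.2, ¬bit acc z' κ' l) → acc z' κ' l.1) ∧
        (∀ l ∈ c'.1, bit acc z κ l) ∧ ∀ l ∈ c'.2, ¬bit acc z κ l := by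
      intro l
      by_cases hl : l ∈ c.1
      · obtain ⟨c', ⟨a1, a2, -, a4, E', a5, a6⟩, a7, a8⟩ :=
          ih l.1 (by have := (h4 l hl).1; omega) (h4 l hl).2.2
        exact ⟨c', E', fun _ => ⟨a1, a2, a5, a4, a6, a7, a8⟩⟩
      · exact ⟨c, E, fun h => absurd h hl⟩
    choose cc EE h7 using h7
    have hp : 1 ≤ g ^ n := Nat.pow_pos hg1
    have hc : ∀ {α : Type} [DecidableEq α] (X : Finset α) (Y : (Σ R, Key R) → Finset α),
        X.card ≤ t → (∀ l ∈ c.1, (Y l).card ≤ g ^ n) → (X ∪ c.1.biUnion Y).card ≤ g ^ (n + 1) := by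
      intro α _ X Y hX hY
      have a1 := card_union_le X (c.1.biUnion Y)
      have a2 := (card_biUnion_le_card_mul _ _ _ hY).trans (Nat.mul_le_mul_right _ h2)
      have a3 := Nat.mul_le_mul_left t hp
      have a4 := Nat.mul_le_mul_right (g ^ n) hg
      rw [pow_succ']
      nlinarith
    have b1 : ∀ l ∈ c.1 ∪ c.1.biUnion fun l => (cc l).1, bit acc z κ l := by
      intro l hl
      rcases mem_union.1 hl with hl | hl
      · exact (h4 l hl).2
      · obtain ⟨m, hm, hl⟩ := mem_biUnion.1 hl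
        exact (h7 m hm).2.2.2.2.2.1 l hl
    have b2 : ∀ l ∈ c.2 ∪ c.1.biUnion fun l => (cc l).2, lev l.1 < lev R ∧ ¬bit acc z κ l := by
      intro l hl
      rcases mem_union.1 hl with hl | hl
      · exact h5 l hl
      · obtain ⟨m, hm, hl⟩ := mem_biUnion.1 hl
        exact ⟨((h7 m hm).2.2.2.1 l hl).trans (h4 m hm).1, (h7 m hm).2.2.2.2.2.2 l hl⟩
    refine ⟨(c.1 ∪ c.1.biUnion fun l => (cc l).1, c.2 ∪ c.1.biUnion fun l => (cc l).2),
      ⟨hc _ _ h2 fun l hl => (h7 l hl).1, hc _ _ h3 fun l hl => (h7 l hl).2.1,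
        disjoint_left.2 fun l a b => (b2 l b).2 (b1 l a), fun l hl => (b2 l hl).1,
        E ∪ c.1.biUnion EE, hc _ _ h1 fun l hl => (h7 l hl).2.2.1, fun z' κ' e1 e2 e3 => ?_⟩,
      b1, fun l hl => (b2 l hl).2⟩
    refine h6 z' κ' (fun v hv => e1 v (mem_union_left _ hv))
      (fun l hl => ⟨e2 l (mem_union_left _ hl), (h7 l hl).2.2.2.2.1 z' κ' ?_ ?_ ?_⟩)
      fun l hl => e3 l (mem_union_left _ hl)
    · exact fun v hv => e1 v (mem_union_right _ (mem_biUnion.2 ⟨l, hl, hv⟩))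
    · exact fun m hm => e2 m (mem_union_right _ (mem_biUnion.2 ⟨l, hl, hm⟩))
    · exact fun m hm => e3 m (mem_union_right _ (mem_biUnion.2 ⟨l, hl, hm⟩))

theorem Gam.cert {κ : ∀ R, Key R} {R : ι} {F : Finset ι} {z : V → Bool}
    (h : Gam acc lev D κ R F z) :
    ∃ E : Finset V, E.card ≤ D ∧ ∀ z', (∀ v ∈ E, z' v = z v) → Gam acc lev D κ R F z' := by
  obtain ⟨c, ⟨a1, a2, a3, a4, E, a5, a6⟩, h⟩ := h
  exact ⟨E, a5, fun z' hz => ⟨c, ⟨a1, a2, a3, a4, E, a5, fun z'' κ' e =>
    a6 z'' κ' fun v hv => (e v hv).trans (hz v hv)⟩, h⟩⟩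

theorem Gam.sound {κ : ∀ R, Key R} {R : ι} {F : Finset ι} {z : V → Bool}
    (h : Gam acc lev D κ R F z) (hF : ∀ R', lev R' < lev R → acc z κ R' → R' ∈ F) :
    acc z κ R := by
  obtain ⟨c, ⟨-, -, -, a4, E, -, a6⟩, h1, h2⟩ := h
  exact a6 z κ (fun _ _ => rfl) h1 fun l hl hb => h2 l hl (hF _ (a4 l hl) hb.2) hb.1

variable [Fintype ι] [DecidableEq ι]

/-- The witness systems. -/
def Wit (acc : (V → Bool) → (∀ R, Key R) → ι → Prop) (lev : ι → ℕ) (D : ℕ) (κ : ∀ R, Key R)
    (P Q : Finset ι) (z : V → Bool) : Prop :=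
  (∀ R ∈ P, Gam acc lev D κ R Qᶜ z) ∧ ∀ R ∈ Q, ¬Gam acc lev D κ R P z

theorem Wit.sound (h : Sys acc lev t) (hg : 2 * t ≤ g) (hg1 : 1 ≤ g) {L : ℕ} (hL : ∀ R, lev R < L)
    {κ : ∀ R, Key R} {P Q : Finset ι} {z : V → Bool} (hW : Wit acc lev (g ^ L) κ P Q z) (R : ι) :
    (R ∈ P → acc z κ R) ∧ (R ∈ Q → ¬acc z κ R) := by
  induction hn : lev R using Nat.strong_induction_on generalizing R with
  | _ m ih =>
    refine ⟨fun hR => (hW.1 R hR).sound fun R' h1 h2 => mem_compl.2 fun h3 =>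
      (ih _ (by omega) R' rfl).2 h3 h2, fun hR ha => ?_⟩
    obtain ⟨c, h1, h2, h3⟩ := h.cert hg hg1 z κ L R (hL R) ha
    exact hW.2 R hR ⟨c, h1, fun l hl => (h2 l hl).1, fun l hl h4 h5 => h3 l hl
      ⟨h5, (ih _ (by have := h1.2.2.2.1 l hl; omega) l.1 rfl).1 h4⟩⟩

omit [Fintype ι] in
theorem exists_closed {K : ℕ} (hK : 1 ≤ K) (nb : ι → Finset ι) (h1 : ∀ R, (nb R).card ≤ K)
    (h2 : ∀ R, ∀ R' ∈ nb R, lev R' < lev R) (n : ℕ) (R : ι) (hR : lev R < n) :
    ∃ U : Finset ι, R ∈ U ∧ U.card ≤ (2 * K) ^ n ∧ ∀ R' ∈ U, nb R' ⊆ U := by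
  induction n generalizing R with
  | zero => omega
  | succ n ih =>
    have h3 : ∀ R', ∃ U : Finset ι, R' ∈ nb R →
        R' ∈ U ∧ U.card ≤ (2 * K) ^ n ∧ ∀ R' ∈ U, nb R' ⊆ U := by
      intro R'
      by_cases hR' : R' ∈ nb R
      · obtain ⟨U, hU⟩ := ih R' (by have := h2 R R' hR'; omega)
        exact ⟨U, fun _ => hU⟩
      · exact ⟨∅, fun h => absurd h hR'⟩
    choose U hU using h3
    refine ⟨insert R ((nb R).biUnion U), mem_insert_self _ _, ?_, fun R' hR' R'' h => ?_⟩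
    · have a1 := card_insert_le R ((nb R).biUnion U)
      have a2 := (card_biUnion_le_card_mul _ _ _ fun R' h => (hU R' h).2.1).trans
        (Nat.mul_le_mul_right _ (h1 R))
      have a3 : 1 ≤ K * (2 * K) ^ n := Nat.mul_pos hK (Nat.pow_pos (by omega))
      rw [pow_succ', mul_assoc]
      omega
    · refine mem_insert_of_mem ?_
      rcases mem_insert.1 hR' with rfl | hR'
      · exact mem_biUnion.2 ⟨R'', h, (hU _ h).1⟩
      · obtain ⟨R₁, a1, a2⟩ := mem_biUnion.1 hR'
        exact mem_biUnion.2 ⟨R₁, a1, (hU _ a1).2.2 _ a2 h⟩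

theorem exists_wit (h : Sys acc lev t) (hg : 2 * t ≤ g) (hg1 : 1 ≤ g) {L K : ℕ}
    (hL : ∀ R, lev R < L) (hK : g ^ L ≤ K) {κ : ∀ R, Key R} {z : V → Bool}
    (hB : Blocked acc lev (g ^ L) K z κ) (R : ι) :
    ∃ P Q : Finset ι, P.card ≤ (2 * K) ^ L ∧ Q.card ≤ (2 * K) ^ L ∧
      Wit acc lev (g ^ L) κ P Q z ∧ (R ∈ P ∨ R ∈ Q) := by
  classical
  have h1 : ∀ R, ∃ N : Finset ι, N.card ≤ K ∧ (∀ R' ∈ N, lev R' < lev R) ∧
      (acc z κ R → (∀ R' ∈ N, ¬acc z κ R') ∧ Gam acc lev (g ^ L) κ R Nᶜ z) ∧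
      (¬acc z κ R → (∀ R' ∈ N, acc z κ R') ∧ ¬Gam acc lev (g ^ L) κ R N z) := by
    intro R
    by_cases ha : acc z κ R
    · obtain ⟨c, a1, a2, a3⟩ := h.cert hg hg1 z κ L R (hL R) ha
      refine ⟨(c.2.filter fun l => κ l.1 = l.2).image Sigma.fst,
        card_image_le.trans ((card_filter_le _ _).trans (a1.2.1.trans hK)), fun R' hR' => ?_,
        fun _ => ⟨fun R' hR' => ?_, c, a1, fun l hl => (a2 l hl).1, fun l hl a4 a5 =>
          mem_compl.1 a4 (mem_image_of_mem _ (mem_filter.2 ⟨hl, a5⟩))⟩, fun h => absurd ha h⟩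
      · obtain ⟨l, hl, rfl⟩ := mem_image.1 hR'
        exact a1.2.2.2.1 l (mem_filter.1 hl).1
      · obtain ⟨l, hl, rfl⟩ := mem_image.1 hR'
        exact fun a4 => a3 l (mem_filter.1 hl).1 ⟨(mem_filter.1 hl).2, a4⟩
    · obtain ⟨B, a1, a2, a3⟩ := hB R ha
      exact ⟨B, a1, fun R' h => (a2 R' h).2, fun h => absurd h ha,
        fun _ => ⟨fun R' h => (a2 R' h).1, a3⟩⟩
  choose nb h1 h2 h3 h4 using h1
  obtain ⟨U, a1, a2, a3⟩ := exists_closed ((Nat.pow_pos hg1).trans_le hK) nb h1 h2 L R (hL R)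
  refine ⟨U.filter (acc z κ ·), U.filter (¬acc z κ ·), (card_filter_le _ _).trans a2,
    (card_filter_le _ _).trans a2, ⟨fun R' hR' => ?_, fun R' hR' => ?_⟩, ?_⟩
  · obtain ⟨b1, b2⟩ := mem_filter.1 hR'
    obtain ⟨b3, c, b4⟩ := h3 R' b2
    exact ⟨c, b4.anti (compl_subset_compl.2 fun R'' h => mem_filter.2 ⟨a3 _ b1 h, b3 _ h⟩)⟩
  · obtain ⟨b1, b2⟩ := mem_filter.1 hR'
    obtain ⟨b3, b4⟩ := h4 R' b2
    exact fun ⟨c, b5⟩ => b4 ⟨c, b5.anti fun R'' h => mem_filter.2 ⟨a3 _ b1 h, b3 _ h⟩⟩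
  · by_cases ha : acc z κ R
    · exact Or.inl (mem_filter.2 ⟨a1, ha⟩)
    · exact Or.inr (mem_filter.2 ⟨a1, ha⟩)

variable [∀ R, Fintype (Key R)] [∀ R, DecidableEq (Key R)]

open Classical in
theorem most_blocked (h : Sys acc lev t) {L m q : ℕ} (hL : ∀ R, lev R < L) (hD0 : 0 < D)
    (hm : Fintype.card ι < 2 ^ m) (hLm : 2 * L ≤ 2 ^ m) (hq : 1 + 4 * m * (D + 1) ≤ q)
    (hkey : ∀ R, 2 * D * #{R' | lev R' = lev R} ≤ Fintype.card (Key R)) (z : V → Bool) :
    #{κ : ∀ R, Key R | ¬Blocked acc lev D (q ^ L) z κ} * 2 ≤ Fintype.card (∀ R, Key R) := by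
  obtain ⟨rk, hrk⟩ := exists_injective_nat (Ct Key)
  let Cu : ℕ → (∀ R, Key R) → Finset ι := fun n κ => {R | lev R = n ∧ acc z κ R}
  let Lo : ℕ → (∀ R, Key R) → Finset ι := fun n κ => {R | lev R < n ∧ acc z κ R}
  let Bad : ι → ℕ → Finset ι → Finset (∀ R, Key R) := fun R n B =>
    {κ | ∃ S, Chain (SC acc lev D z R) rk (Cu n κ) κ (m * (B.card + 3)) (B ∪ Lo n κ) S}
  have h1 : ∀ R n B, (Bad R n B).card * 2 ^ (m * (B.card + 3)) ≤ Fintype.card (∀ R, Key R) := by
    intro R n B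
    refine card_chain hrk (fun c hc => hc.2.1) (fun c hc => hc.2.2.1) _ {R' | lev R' = n} (Cu n)
      (fun κ => B ∪ Lo n κ) (fun κ R' hR' => ?_) (fun κ κ' hκ => ?_) hD0 fun R' hR' => ?_
    · exact mem_filter.2 ⟨mem_univ _, (mem_filter.1 hR').2.1⟩
    · have e : ∀ R', lev R' ≤ n → (acc z κ R' ↔ acc z κ' R') := fun R' hR' =>
        ⟨h.loc z n R' hR' _ _ fun R h => hκ R (by simp; omega),
          h.loc z n R' hR' _ _ fun R h => (hκ R (by simp; omega)).symm⟩
      exact ⟨filter_congr fun R' _ => and_congr_right fun h => e R' h.le, congrArg (B ∪ ·)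
        (filter_congr fun R' _ => and_congr_right fun h => e R' h.le)⟩
    · rw [← (mem_filter.1 hR').2]
      exact hkey R'
  have h2 : ∀ R n, (∑ B ∈ (univ : Finset ι).powerset, (Bad R n B).card) * 2 ^ (3 * m) ≤
      2 ^ m * Fintype.card (∀ R, Key R) := by
    intro R n
    rw [sum_powerset, sum_mul]
    refine (sum_le_card_nsmul _ _ (Fintype.card (∀ R, Key R)) fun b _ => ?_).trans ?_
    · refine Nat.le_of_mul_le_mul_right (c := 2 ^ (m * b)) ?_ (by positivity)
      rw [mul_assoc, sum_mul]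
      refine (sum_le_card_nsmul _ _ (Fintype.card (∀ R, Key R)) fun B hB => ?_).trans ?_
      · have := h1 R n B
        rwa [(mem_powersetCard.1 hB).2, mul_add, add_comm, mul_comm m 3, pow_add] at this
      · rw [smul_eq_mul, card_powersetCard, mul_comm, pow_mul]
        exact Nat.mul_le_mul_left _ ((Nat.choose_le_pow _ _).trans (Nat.pow_le_pow_left hm.le _))
    · rw [smul_eq_mul, card_range]
      exact Nat.mul_le_mul_right _ hm
  have h3 : ({κ : ∀ R, Key R | ¬Blocked acc lev D (q ^ L) z κ} : Finset _) ⊆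
      univ.biUnion fun R => (range L).biUnion fun n => univ.powerset.biUnion (Bad R n) := by
    intro κ hκ
    by_contra hc
    simp only [mem_biUnion, mem_univ, true_and, mem_range, mem_powerset, subset_univ, not_exists,
      not_and] at hc
    refine (mem_filter.1 hκ).2 fun R hR => ?_
    have hq1 : 1 ≤ q := by omega
    have key : ∀ i n, n + i = lev R → ∃ B : Finset ι, B.card ≤ q ^ i ∧
        (∀ R' ∈ B, acc z κ R' ∧ lev R' < lev R) ∧ ¬Gam acc lev D κ R (B ∪ Lo n κ) z := by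
      intro i
      induction i with
      | zero =>
        intro n hn
        refine ⟨∅, by simp, by simp, fun hG => hR (hG.sound fun R' a1 a2 => ?_)⟩
        exact mem_union_right _ (mem_filter.2 ⟨mem_univ _, by omega, a2⟩)
      | succ i ih =>
        intro n hn
        obtain ⟨B, a1, a2, a3⟩ := ih (n + 1) (by omega)
        have a4 : ∀ c, Live (SC acc lev D z R) κ (B ∪ Lo n κ) c →
            ∃ l ∈ c.2, κ l.1 = l.2 ∧ l.1 ∈ Cu n κ := by
          intro c hc
          by_contra a5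
          push Not at a5
          refine a3 ⟨c, hc.1, hc.2.1, fun l hl a6 a7 => ?_⟩
          rcases mem_union.1 a6 with a6 | a6
          · exact hc.2.2 l hl (mem_union_left _ a6) a7
          · obtain ⟨a8, a9⟩ := (mem_filter.1 a6).2
            rcases (Nat.lt_succ_iff.1 a8).lt_or_eq with a8 | a8
            · exact hc.2.2 l hl (mem_union_right _ (mem_filter.2 ⟨mem_univ _, a8, a9⟩)) a7
            · exact a5 l hl a7 (mem_filter.2 ⟨mem_univ _, a8, a9⟩)
        rcases exists_chain (rk := rk) (fun c hc => hc.1) κ (m * (B.card + 3)) _ a4 with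
          ⟨F, b1, b2, b3⟩ | b1
        · refine ⟨B ∪ F, (card_union_le _ _).trans ?_, fun R' hR' => ?_, fun ⟨c, hc⟩ =>
            b3 c (by rwa [union_right_comm])⟩
          · have b4 : 1 ≤ q ^ i := Nat.pow_pos hq1
            have b5 : m * (B.card + 3) * (D + 1) ≤ m * (4 * q ^ i) * (D + 1) :=
              Nat.mul_le_mul_right _ (Nat.mul_le_mul_left _ (by omega))
            have b6 := Nat.mul_le_mul_left (q ^ i) hq
            rw [pow_succ]
            nlinarith
          · rcases mem_union.1 hR' with hR' | hR'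
            · exact a2 R' hR'
            · obtain ⟨b4, b5⟩ := (mem_filter.1 (b1 hR')).2
              exact ⟨b5, by omega⟩
        · exact (hc R n (by have := hL R; omega) B (mem_filter.2 ⟨mem_univ _, b1⟩)).elim
    obtain ⟨B, a1, a2, a3⟩ := key (lev R) 0 (zero_add _)
    exact ⟨B, a1.trans (Nat.pow_le_pow_right hq1 (hL R).le), a2, fun ⟨c, hc⟩ =>
      a3 ⟨c, by simpa [Lo] using hc⟩⟩
  have h4 : #{κ : ∀ R, Key R | ¬Blocked acc lev D (q ^ L) z κ} * 2 ^ (3 * m) ≤
      Fintype.card ι * (L * (2 ^ m * Fintype.card (∀ R, Key R))) := by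
    refine (Nat.mul_le_mul_right _ ((card_le_card h3).trans card_biUnion_le)).trans ?_
    rw [sum_mul]
    refine sum_le_card_nsmul _ _ _ fun R _ => (Nat.mul_le_mul_right _ card_biUnion_le).trans ?_
    rw [sum_mul]
    refine (sum_le_card_nsmul _ _ _ fun n _ =>
      (Nat.mul_le_mul_right _ card_biUnion_le).trans (h2 R n)).trans ?_
    rw [card_range, smul_eq_mul]
  refine Nat.le_of_mul_le_mul_right (c := 2 ^ (3 * m)) ?_ (by positivity)
  have h5 := Nat.mul_le_mul (Nat.mul_le_mul hm.le hLm)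
    (le_refl (2 ^ m * Fintype.card (∀ R, Key R)))
  calc _ = 2 * (#{κ : ∀ R, Key R | ¬Blocked acc lev D (q ^ L) z κ} * 2 ^ (3 * m)) := by ring
    _ ≤ 2 * (Fintype.card ι * (L * (2 ^ m * Fintype.card (∀ R, Key R)))) :=
      Nat.mul_le_mul_left _ h4
    _ = _ := by ring
    _ ≤ _ := h5
    _ = _ := by ring

end Pool.Agent.MP_a2d820_lc.h31u

end MrgPart1

-- ======== part 2: formerly Pool.Agent.MP_a2d820_lc.h31u.Circ
section MrgPart2

/-!
Bounded-depth circuits that query a self-referential system with random keys are simulated by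
circuits in the base variables with four more layers. Two functions that such circuits miss.
-/

set_option autoImplicit false

namespace Pool.Agent.MP_a2d820_lc.h31u

open Finset Pool.Agent.MP_a2d820_lc.h69

section
variable {V : Type} {Q Q' : Set ((V → Bool) → Bool)}

theorem dtq_sub {d : ℕ} {f : (V → Bool) → Bool} (h : DTq Q d f) (hQ : Q ⊆ Q') : DTq Q' d f := by
  induction h with
  | const d b => exact .const _ b
  | node hg _ _ ih₀ ih₁ => exact .node (hQ hg) ih₀ ih₁

theorem dtq_one {q : (V → Bool) → Bool} (h : q ∈ Q) : DTq Q 1 q :=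
  (DTq.node h (.const 0 false) (.const 0 true)).congr fun z => by cases q z <;> rfl

theorem dtq_not {q : (V → Bool) → Bool} (h : q ∈ Q) : DTq Q 1 fun z => !q z :=
  (DTq.node h (.const 0 true) (.const 0 false)).congr fun z => by cases q z <;> rfl

theorem dtq_and {d d' : ℕ} {f g : (V → Bool) → Bool} (hf : DTq Q d f) (hg : DTq Q d' g) :
    DTq Q (d' + d) fun z => f z && g z :=
  (hf.cond (.const d' false) hg).congr fun z => by cases f z <;> rfl

theorem dtq_all {α : Type} (I : Finset α) (g : α → (V → Bool) → Bool)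
    (h : ∀ i ∈ I, DTq Q 1 (g i)) {f : (V → Bool) → Bool}
    (hf : ∀ z, f z = true ↔ ∀ i ∈ I, g i z = true) : DTq Q I.card f := by
  classical
  induction I using Finset.induction_on generalizing f with
  | empty => exact (DTq.const _ true).congr fun z => by simpa using hf z
  | insert a I ha ih =>
    rw [card_insert_of_notMem ha]
    refine (dtq_and (h a (mem_insert_self _ _)) (ih (f := fun z => decide (∀ i ∈ I, g i z = true))
      (fun i hi => h i (mem_insert_of_mem hi)) fun z => decide_eq_true_iff)).congr fun z => ?_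
    rw [Bool.eq_iff_iff, hf]
    simp

theorem isOr_of_dtq {w : ℕ} {f : (V → Bool) → Bool} (h : DTq Q w f) : IsOr Q w f :=
  ⟨{f}, by simpa, by simp⟩

theorem isOr_mono {w w' : ℕ} {f : (V → Bool) → Bool} (h : IsOr Q w f) (hQ : Q ⊆ Q')
    (hw : w ≤ w') : IsOr Q' w' f := by
  obtain ⟨G, h1, h2⟩ := h
  exact ⟨G, fun g hg => (dtq_sub (h1 g hg) hQ).mono hw, h2⟩

theorem isOr_of_cert {w : ℕ} {f : (V → Bool) → Bool} (hQ : {g | DT 1 g} ⊆ Q)
    (h : ∀ z, f z = true → ∃ E : Finset V, E.card ≤ w ∧ ∀ z', (∀ v ∈ E, z' v = z v) →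
      f z' = true) : IsOr Q w f := by
  refine ⟨{g | ∃ (E : Finset V) (y : V → Bool), E.card ≤ w ∧ (∀ z', (∀ v ∈ E, z' v = y v) →
    f z' = true) ∧ g = fun z => decide (∀ v ∈ E, (z v == y v) = true)}, ?_, fun z => ?_⟩
  · rintro _ ⟨E, y, h1, -, rfl⟩
    refine (dtq_all E (fun v z => z v == y v) (fun v _ => dtq_one (hQ ?_))
      fun z => decide_eq_true_iff).mono h1
    exact (DTq.node (Set.mem_range_self v) (.const 0 (!y v)) (.const 0 (y v))).congr fun z => by
      cases z v <;> cases y v <;> rfl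
  · constructor
    · intro hz
      obtain ⟨E, h1, h2⟩ := h z hz
      exact ⟨_, ⟨E, z, h1, h2, rfl⟩, by simp⟩
    · rintro ⟨_, ⟨E, y, -, h2, rfl⟩, h3⟩
      exact h2 z (by simpa using h3)

theorem ac_up {w w' N N' k : ℕ} {F : Set ((V → Bool) → Bool)} (h : AC w N k F) (hw : w ≤ w')
    (hN : N ≤ N') : AC w' N' k F := by
  induction k generalizing F with
  | zero => exact fun f hf => (h f hf).mono hw
  | succ k ih =>
    obtain ⟨G, h1, h2, h3⟩ := h
    exact ⟨G, h1.trans hN, ih h2, fun f hf => isOr_mono (h3 f hf) subset_rfl hw⟩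

theorem ac_union {α : Type} {w N k : ℕ} (I : Finset α) (F : α → Set ((V → Bool) → Bool))
    (h : ∀ i, AC w N k (F i)) : AC w (I.card * N) k {f | ∃ i ∈ I, f ∈ F i} := by
  classical
  induction k generalizing F with
  | zero => exact fun f ⟨i, _, hf⟩ => h i f hf
  | succ k ih =>
    choose G h1 h2 h3 using h
    refine ⟨I.biUnion G, card_biUnion_le_card_mul _ _ _ fun i _ => h1 i,
      (ih _ h2).mono fun f hf => mem_biUnion.1 hf, fun f ⟨i, hi, hf⟩ =>
        isOr_mono (h3 i f hf) (Set.union_subset_union_left _ fun g hg => ?_) le_rfl⟩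
    exact mem_coe.2 (mem_biUnion.2 ⟨i, hi, hg⟩)

theorem ac_lift {w N k : ℕ} {G : Finset ((V → Bool) → Bool)} (hw : 1 ≤ w) (hG : G.card ≤ N)
    (h : AC w N k (G : Set ((V → Bool) → Bool))) (j : ℕ) :
    AC w N (k + j) (G : Set ((V → Bool) → Bool)) := by
  induction j with
  | zero => exact h
  | succ j ih => exact ⟨G, hG, ih, fun f hf => isOr_of_dtq ((dtq_one (Or.inl hf)).mono hw)⟩

theorem ac_comp {V' : Type} {w N c : ℕ} {G₀ : Finset ((V → Bool) → Bool)} (hw : 1 ≤ w)
    (hG : G₀.card ≤ N) (h₀ : AC w N c (G₀ : Set ((V → Bool) → Bool)))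
    (g : V' → (V → Bool) → Bool) (hg : ∀ v, g v ∈ (G₀ : Set _) ∪ {q | DT 1 q}) (j : ℕ)
    (F : Set ((V' → Bool) → Bool)) (hF : AC w N j F) :
    AC w (2 * N) (c + j + 1) ((fun f => f ∘ fun z v => g v z) '' F ∪ G₀) := by
  classical
  have key : ∀ (G : Finset ((V → Bool) → Bool)) (d : ℕ) (f : (V' → Bool) → Bool), G₀ ⊆ G →
      DT d f → DTq ((G : Set _) ∪ {q | DT 1 q}) d (f ∘ fun z v => g v z) := by
    intro G d f hG hf
    refine hf.precomp _ ?_
    rintro _ ⟨v, rfl⟩
    exact Set.union_subset_union_left _ (coe_subset.2 hG) (hg v)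
  induction j generalizing F with
  | zero =>
    refine ⟨G₀, by omega, ac_up h₀ le_rfl (by omega), ?_⟩
    rintro f (⟨f, hf, rfl⟩ | hf)
    · exact isOr_of_dtq (key _ _ _ Subset.rfl (hF f hf))
    · exact isOr_of_dtq ((dtq_one (Or.inl hf)).mono hw)
  | succ j ih =>
    obtain ⟨G, h1, h2, h3⟩ := hF
    refine ⟨G.image (fun f => f ∘ fun z v => g v z) ∪ G₀, (card_union_le _ _).trans ?_,
      (ih _ h2).mono (by rw [coe_union, coe_image]), ?_⟩
    · have := card_image_le (s := G) (f := fun f => f ∘ fun z v => g v z)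
      omega
    rintro f (⟨f, hf, rfl⟩ | hf)
    · obtain ⟨H, a1, a2⟩ := h3 f hf
      refine ⟨(fun f => f ∘ fun z v => g v z) '' H, ?_, fun z => ?_⟩
      · rintro _ ⟨u, hu, rfl⟩
        set Q : Set ((V → Bool) → Bool) :=
          (↑(G.image (fun f => f ∘ fun z v => g v z) ∪ G₀) : Set _) ∪ {q | DT 1 q}
        have a3 : DTq {q | DTq Q 1 q} w (u ∘ fun z v => g v z) := (a1 u hu).precomp _ (by
          rintro q (hq | hq)
          · exact dtq_one (Or.inl (mem_coe.2 (mem_union_left _ (mem_image_of_mem _ hq))))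
          · exact key _ _ _ subset_union_right hq)
        exact (a3.comp (Q' := Q) (s := 1) fun q hq => hq).mono (by omega)
      · refine (a2 _).trans ?_
        simp
    · exact isOr_of_dtq ((dtq_one (Or.inl (mem_coe.2 (mem_union_right _ hf)))).mono hw)

end

theorem card_small {ι : Type} [Fintype ι] [DecidableEq ι] {m : ℕ} (hm : Fintype.card ι < 2 ^ m)
    (S : ℕ) : #{P : Finset ι | P.card ≤ S} ≤ 2 ^ ((m + 1) * S) := by
  have h1 : ({P : Finset ι | P.card ≤ S} : Finset _) ⊆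
      (range (S + 1)).biUnion fun b => univ.powersetCard b := fun P hP => by
    simpa [Nat.lt_succ_iff] using hP
  refine (card_le_card h1).trans ((card_biUnion_le_card_mul _ _ ((2 ^ m) ^ S) fun b hb => ?_).trans ?_)
  · rw [card_powersetCard]
    exact (Nat.choose_le_pow _ _).trans ((Nat.pow_le_pow_left hm.le _).trans
      (Nat.pow_le_pow_right (by positivity) (Nat.lt_succ_iff.1 (mem_range.1 hb))))
  · rw [card_range, ← pow_mul, add_mul m, one_mul, pow_add, mul_comm]
    exact Nat.mul_le_mul_left _ Nat.lt_two_pow_self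

theorem simulate {V ι : Type} [Fintype V] [DecidableEq V] [Fintype ι] [DecidableEq ι]
    {Key : ι → Type} [∀ R, Fintype (Key R)] [∀ R, DecidableEq (Key R)] [∀ R, Nonempty (Key R)]
    {acc : (V → Bool) → (∀ R, Key R) → ι → Prop} [∀ z κ R, Decidable (acc z κ R)]
    {lev : ι → ℕ} {t g L m q w N j : ℕ} (h : Sys acc lev t) (hg : 2 * t ≤ g) (hg1 : 1 ≤ g)
    (hL : ∀ R, lev R < L) (hm : Fintype.card ι < 2 ^ m) (hLm : 2 * L ≤ 2 ^ m)
    (hq : 1 + 4 * m * (g ^ L + 1) ≤ q) (hK : g ^ L ≤ q ^ L)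
    (hkey : ∀ R, 2 * g ^ L * #{R' | lev R' = lev R} ≤ Fintype.card (Key R))
    (hw : 2 * (2 * q ^ L) ^ L ≤ w) (hw' : g ^ L ≤ w)
    (hN : 2 ^ (m + 1 + (m + 1) * (2 * q ^ L) ^ L) ≤ N)
    (f : (∀ R, Key R) → (V ⊕ ι → Bool) → Bool) (hf : ∀ κ, AC w N j {f κ})
    (F : (V → Bool) → Bool)
    (hF : ∀ z κ, f κ (Sum.elim z fun R => decide (acc z κ R)) = F z) :
    AC w (4 * (Fintype.card V + 1) * N) (j + 4) {F} := by
  classical
  set S := (2 * q ^ L) ^ L
  have hS : 1 ≤ S := Nat.pow_pos (Nat.mul_pos two_pos (Nat.pow_pos (by omega)))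
  have hN' : 2 * Fintype.card ι ≤ N := by
    refine le_trans ?_ ((Nat.pow_le_pow_right two_pos (Nat.le_add_right _ _)).trans hN)
    rw [pow_succ]
    omega
  have hN1 : 1 ≤ N := Nat.one_le_two_pow.trans hN
  obtain ⟨T, hT, hT'⟩ := exists_cover (fun z κ => ¬Blocked acc lev (g ^ L) (q ^ L) z κ)
    (most_blocked h hL (Nat.pow_pos hg1) hm hLm hq hkey) (Fintype.card V + 1) univ
    (by simp [pow_succ])
  let g1 : (∀ R, Key R) → ι → Finset ι → (V → Bool) → Bool := fun κ R X z =>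
    decide (Gam acc lev (g ^ L) κ R X z)
  let G1 : (∀ R, Key R) → Finset ((V → Bool) → Bool) := fun κ =>
    ((univ : Finset (ι × Bool)) ×ˢ ({P : Finset ι | P.card ≤ S} : Finset _)).image fun a =>
      g1 κ a.1.1 (bif a.1.2 then a.2 else a.2ᶜ)
  let g2 : (∀ R, Key R) → ι × Bool → (V → Bool) → Bool := fun κ a z =>
    decide (∃ P Q : Finset ι, P.card ≤ S ∧ Q.card ≤ S ∧ Wit acc lev (g ^ L) κ P Q z ∧
      a.1 ∈ bif a.2 then P else Q)
  let G2 : (∀ R, Key R) → Finset ((V → Bool) → Bool) := fun κ => univ.image (g2 κ)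
  let g3 : (∀ R, Key R) → (V → Bool) → Bool := fun κ z =>
    decide (∃ R, g2 κ (R, true) z = false ∧ g2 κ (R, false) z = false)
  let g4 : (∀ R, Key R) → (V → Bool) → Bool := fun κ =>
    f κ ∘ fun z v => Sum.elim (fun v (z : V → Bool) => z v) (fun R => g2 κ (R, true)) v z
  have c1 : ∀ κ, (G1 κ).card ≤ N := fun κ => by
    refine card_image_le.trans (le_trans ?_ hN)
    rw [card_product, card_univ, Fintype.card_prod, Fintype.card_bool, pow_add, pow_succ]
    exact Nat.mul_le_mul (by omega) (card_small hm S)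
  have c2 : ∀ κ, (G2 κ).card ≤ N := fun κ => card_image_le.trans (by simpa [mul_comm] using hN')
  have a1 : ∀ κ, AC w N 1 (G1 κ : Set ((V → Bool) → Bool)) := by
    refine fun κ => ⟨∅, by simp, fun f hf => by simp at hf, fun f hf => ?_⟩
    obtain ⟨a, -, rfl⟩ := mem_image.1 hf
    refine isOr_of_cert Set.subset_union_right fun z hz => ?_
    obtain ⟨E, h1, h2⟩ := (of_decide_eq_true hz).cert
    exact ⟨E, h1.trans hw', fun z' h3 => decide_eq_true (h2 z' h3)⟩
  have a2 : ∀ κ, AC w N 2 (G2 κ : Set ((V → Bool) → Bool)) := by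
    refine fun κ => ⟨G1 κ, c1 κ, a1 κ, fun f hf => ?_⟩
    obtain ⟨a, -, rfl⟩ := mem_image.1 hf
    refine ⟨{u | ∃ P Q : Finset ι, P.card ≤ S ∧ Q.card ≤ S ∧ (a.1 ∈ bif a.2 then P else Q) ∧
      u = fun z => decide (∀ R ∈ P, g1 κ R Qᶜ z = true) &&
        decide (∀ R ∈ Q, (!g1 κ R P z) = true)}, ?_, fun z => ?_⟩
    · rintro _ ⟨P, Q, h1, h2, -, rfl⟩
      refine DTq.mono (d := Q.card + P.card) (dtq_and
        (dtq_all P (fun R => g1 κ R Qᶜ) (fun R _ => dtq_one ?_) fun z => decide_eq_true_iff)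
        (dtq_all Q (fun R z => !g1 κ R P z) (fun R _ => dtq_not ?_) fun z => decide_eq_true_iff))
        (by omega)
      · exact Or.inl (mem_coe.2 (mem_image.2 ⟨((R, false), Q), by simpa, rfl⟩))
      · exact Or.inl (mem_coe.2 (mem_image.2 ⟨((R, true), P), by simpa, rfl⟩))
    · simp only [g2, decide_eq_true_eq, Set.mem_ofPred_eq]
      constructor
      · rintro ⟨P, Q, h1, h2, h3, h4⟩
        exact ⟨_, ⟨P, Q, h1, h2, h4, rfl⟩, by simpa [g1, Wit] using h3⟩
      · rintro ⟨_, ⟨P, Q, h1, h2, h4, rfl⟩, h3⟩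
        exact ⟨P, Q, h1, h2, by simpa [g1, Wit] using h3, h4⟩
  have a3 : ∀ κ, AC w N 3 (({g3 κ} : Finset _) : Set ((V → Bool) → Bool)) := by
    refine fun κ => ⟨G2 κ, c2 κ, a2 κ, fun f hf => ?_⟩
    obtain rfl : f = g3 κ := by simpa using hf
    refine ⟨Set.range fun R z => !g2 κ (R, true) z && !g2 κ (R, false) z, ?_, fun z => by simp [g3]⟩
    rintro _ ⟨R, rfl⟩
    exact (dtq_and (dtq_not (Or.inl (mem_coe.2 (mem_image_of_mem _ (mem_univ _)))))
      (dtq_not (Or.inl (mem_coe.2 (mem_image_of_mem _ (mem_univ _)))))).mono (by omega)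
  have a4 : ∀ a : (∀ R, Key R) × Bool, AC w (2 * N) (j + 3) {bif a.2 then g3 a.1 else g4 a.1} := by
    rintro ⟨κ, _ | _⟩
    · have := ac_comp (by omega) (c2 κ) (a2 κ)
        (Sum.elim (fun v (z : V → Bool) => z v) fun R => g2 κ (R, true)) (by
          rintro (v | R)
          · exact Or.inr (dt_var v)
          · exact Or.inl (mem_coe.2 (mem_image_of_mem _ (mem_univ _)))) j _ (hf κ)
      rw [show 2 + j + 1 = j + 3 by omega] at this
      exact this.mono (Set.singleton_subset_iff.2 (Or.inl ⟨_, rfl, rfl⟩))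
    · have := ac_lift (by omega) (by simpa) (a3 κ) j
      rw [add_comm, coe_singleton] at this
      exact ac_up this le_rfl (by omega)
  have hc : (T ×ˢ (univ : Finset Bool)).card ≤ 2 * (Fintype.card V + 1) := by
    simp
    omega
  have hok : ∀ κ z, g3 κ z = false → g4 κ z = F z := by
    intro κ z hz
    rw [← hF z κ]
    refine congrArg (f κ) (funext ?_)
    rintro (v | R)
    · rfl
    · have h1 : ¬(g2 κ (R, true) z = false ∧ g2 κ (R, false) z = false) := fun h1 =>
        of_decide_eq_false hz ⟨R, h1⟩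
      refine decide_eq_decide.2 ⟨fun ⟨P, Q, _, _, h2, h3⟩ => (h2.sound h hg hg1 hL R).1 h3,
        fun ha => ?_⟩
      by_contra h2
      exact h1 ⟨decide_eq_false h2, decide_eq_false fun ⟨P, Q, _, _, h3, h4⟩ =>
        (h3.sound h hg hg1 hL R).2 h4 ha⟩
  refine ⟨(T ×ˢ univ).image fun a : (∀ R, Key R) × Bool => bif a.2 then g3 a.1 else g4 a.1,
    card_image_le.trans (hc.trans (by nlinarith)), (ac_up (ac_union (T ×ˢ univ) _ a4) le_rfl
      ((Nat.mul_le_mul_right _ hc).trans (le_of_eq (by ring)))).mono fun u hu => ?_, ?_⟩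
  · obtain ⟨a, ha, rfl⟩ := mem_image.1 hu
    exact ⟨a, ha, rfl⟩
  rintro _ rfl
  refine ⟨(fun κ z => !g3 κ z && g4 κ z) '' T, ?_, fun z => ⟨fun hz => ?_, ?_⟩⟩
  · rintro _ ⟨κ, hκ, rfl⟩
    exact (dtq_and (dtq_not (Or.inl (mem_coe.2 (mem_image.2 ⟨(κ, true), by simpa, rfl⟩))))
      (dtq_one (Or.inl (mem_coe.2 (mem_image.2 ⟨(κ, false), by simpa, rfl⟩))))).mono (by omega)
  · obtain ⟨κ, h1, h2⟩ := hT' z (mem_univ _)
    have h3 : g3 κ z = false := decide_eq_false fun ⟨R, h4, h5⟩ => by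
      obtain ⟨P, Q, b1, b2, b3, b4 | b4⟩ := exists_wit h hg hg1 hL hK (not_not.1 h2) R
      · exact of_decide_eq_false h4 ⟨P, Q, b1, b2, b3, b4⟩
      · exact of_decide_eq_false h5 ⟨P, Q, b1, b2, b3, b4⟩
    exact ⟨_, ⟨κ, h1, rfl⟩, by simp [h3, hok κ z h3, hz]⟩
  · rintro ⟨_, ⟨κ, -, rfl⟩, h1⟩
    simp only [Bool.and_eq_true, Bool.not_eq_true'] at h1
    rw [← hok κ z h1.1, h1.2]

end Pool.Agent.MP_a2d820_lc.h31u

end MrgPart2

-- ======== part 3: formerly Pool.Agent.MP_a2d820_lc.h31u.Oracle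
section MrgPart3

/-!
The oracle that stores the answer to every nondeterministic computation at one hidden key, and one
stage of its construction.
-/

set_option autoImplicit false

namespace Pool.Agent.MP_a2d820_lc.h31u

open Pool.Agent.MP_a2d820_lc.h69 Pool.Agent.PolyT Pool.Agent.H82 N487b59b3 Function Finset

/-- Enumerations of clocked nondeterministic machines. -/
abbrev Enum := ℕ → OM × Polynomial ℕ × Polynomial ℕ

/-- The key of the question `u`. -/
def key (κ : List Bool → List Bool) (u : List Bool) : List Bool := (κ u).take (3 * u.length)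

/-- The nondeterministic computation named by `u` accepts. -/
def yes (mc : Enum) (u : List Bool) (O : Lang) : Prop :=
  ∃ (i : ℕ) (x y w : List Bool), u = bitEncode (i, x, y) ∧ w.length ≤ (mc i).2.2.eval x.length ∧
    (mc i).2.1.eval (delimit x ++ w).length ≤ u.length ∧
    clk (mc i).1 (mc i).2.1 (trunc u.length O) (delimit x ++ w) = true

theorem trunc_congr {l : ℕ} {A A' : Lang} (h : ∀ v, v.length < l → A v = A' v) :
    trunc l A = trunc l A' := by
  funext v
  by_cases hv : v.length < l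
  · simp only [trunc, h v hv]
  · simp [trunc, hv]

theorem yes_congr (mc : Enum) (u : List Bool) {A A' : Lang}
    (h : ∀ v, v.length < u.length → A v = A' v) : yes mc u A ↔ yes mc u A' := by
  rw [yes, yes, trunc_congr h]

theorem yes_cert {mc : Enum} {u : List Bool} {A : Lang} (h : yes mc u A) :
    ∃ D : Finset (List Bool), D.card ≤ u.length ∧ (∀ s ∈ D, s.length < u.length) ∧
      ∀ A' : Lang, (∀ s ∈ D, A' s = A s) → yes mc u A' := by
  obtain ⟨i, x, y, w, h1, h2, h3, h4⟩ := h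
  obtain ⟨D, h5, h6⟩ := DT.cert (clkF_dt (M := (mc i).1)
    (s := (mc i).2.1.eval (delimit x ++ w).length) (O := fun z : Lang => z)
    (Q := Set.range fun (v : List Bool) (z : Lang) => z v) (fun c _ => ⟨_, rfl⟩)
    ((mc i).2.1.eval (delimit x ++ w).length) (true :: true :: (delimit x ++ w)))
    (trunc u.length A)
  refine ⟨D.filter (·.length < u.length), (card_filter_le _ _).trans (h5.trans h3),
    fun s hs => (mem_filter.1 hs).2, fun A' hA => ⟨i, x, y, w, h1, h2, h3,
      (h6 _ fun v hv => ?_).trans h4⟩⟩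
  by_cases hv' : v.length < u.length
  · simp only [trunc, hA v (mem_filter.2 ⟨hv, hv'⟩)]
  · simp [trunc, hv']

open Classical in
/-- The oracle with background `θ` and keys `κ`. -/
noncomputable def orc (mc : Enum) (θ : Lang) (κ : List Bool → List Bool) : Lang :=
  fix fun s O => if ∃ u w, s = ad u w 1 then
    decide (s = ad (row s) (key κ (row s)) 1 ∧ yes mc (row s) O) else θ s

theorem orc_base (mc : Enum) (θ : Lang) (κ : List Bool → List Bool) {s : List Bool}
    (h : ¬∃ u w, s = ad u w 1) : orc mc θ κ s = θ s := by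
  rw [orc, fix, if_neg h]

theorem orc_row (mc : Enum) (θ : Lang) (κ : List Bool → List Bool) (x j : List Bool) :
    orc mc θ κ (ad x j 0) = θ (ad x j 0) :=
  orc_base mc θ κ fun ⟨_, _, h⟩ => by simpa using (ad_inj h).2.2

theorem orc_code (mc : Enum) (θ : Lang) (κ : List Bool → List Bool) (u w : List Bool) :
    orc mc θ κ (ad u w 1) = true ↔ w = key κ u ∧ yes mc u (orc mc θ κ) := by
  classical
  rw [orc, fix, if_pos ⟨u, w, rfl⟩, decide_eq_true_iff, row_ad]
  refine and_congr ⟨fun h => (ad_inj h).2.1, fun h => by rw [h]⟩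
    (yes_congr mc u fun v hv => if_pos ?_)
  have := le_length_ad u w 1
  omega

theorem np_unique {mc : Enum} (hmc : Surjective mc) (θ : Lang) (κ : List Bool → List Bool)
    {L : Lang} (hL : L ∈ RelNP (orc mc θ κ)) :
    ∃ p : Polynomial ℕ, ∃ R ∈ RelP (orc mc θ κ), (∀ x, L x = true ↔
      ∃ w : List Bool, w.length ≤ p.eval x.length ∧ R (delimit x ++ w) = true) ∧
      ∀ x w w' : List Bool, R (delimit x ++ w) = true → R (delimit x ++ w') = true → w = w' := by
  obtain ⟨q, R, hR, hL⟩ := hL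
  obtain ⟨M, p, rfl⟩ := exists_clk hR
  obtain ⟨i, hi⟩ := hmc (M, p, q)
  obtain ⟨r, hr⟩ := M.exists_qb
  set m₁ : Polynomial ℕ := p.comp (2 * Polynomial.X + 1 + q)
  obtain ⟨F, hF, hF'⟩ := exists_list_eval (l := fun x : List Bool => x) (by fun_prop)
    (m₁ + r.comp m₁)
  let u : List Bool → List Bool := fun x => bitEncode (i, x, (F x).map fun _ => false)
  have hu : PolyT.Poly u := by fun_prop
  obtain ⟨P, hP⟩ := hu.bd
  have hlen : ∀ x, m₁.eval x.length + r.eval (m₁.eval x.length) < (u x).length := by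
    intro x
    have := hF' x
    simp only [Polynomial.eval_add, Polynomial.eval_comp] at this
    simp only [u, length_enc_pair, PolyT.Poly.enc_bools_length, List.length_map]
    omega
  have hm : ∀ x w : List Bool, w.length ≤ q.eval x.length →
      p.eval (delimit x ++ w).length ≤ m₁.eval x.length := by
    intro x w hw
    simp only [m₁, Polynomial.eval_comp]
    refine eval_mono p ?_
    simp
    omega
  have hc : ∀ x w : List Bool, w.length ≤ q.eval x.length →
      clk M p (trunc (u x).length (orc mc θ κ)) (delimit x ++ w) =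
        clk M p (orc mc θ κ) (delimit x ++ w) := by
    refine fun x w hw => clkF_congr (fun c hc => ?_) _ _
    have h1 := hr c _ (hc.trans (hm x w hw))
    have h2 := hlen x
    have h3 : (M.qry c).length < (u x).length := by omega
    simp [trunc, h3]
  refine ⟨P.comp (3 * Polynomial.X), _, one_query
    (Q := fun c => ad (u (sel true c)) (sel false c) 1) (by fun_prop) false _,
    fun x => ?_, fun x w w' => ?_⟩
  · simp only [sel_pair, if_true, Bool.false_eq_true, if_false, Bool.false_xor, orc_code, hL]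
    constructor
    · rintro ⟨w, h1, h2⟩
      refine ⟨_, ?_, rfl, i, x, _, w, rfl, by rwa [hi], ?_, by rw [hi, hc x w h1, h2]⟩
      · have := hP x
        simp only [PolyT.Poly.enc_bools_length] at this
        simp only [key, List.length_take, Polynomial.eval_comp, Polynomial.eval_mul,
          Polynomial.eval_ofNat, Polynomial.eval_X]
        omega
      · have h3 := hm x w h1
        have h4 := hlen x
        rw [hi]
        exact h3.trans (by omega)
    · rintro ⟨-, -, -, i', x', y', w, e, h1, -, h2⟩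
      have e' := bitEncode_injective e
      simp only [Prod.mk.injEq] at e'
      obtain ⟨rfl, rfl, -⟩ := e'
      rw [hi] at h1 h2
      exact ⟨w, h1, (hc x w h1).symm.trans h2⟩
  · simp only [sel_pair, if_true, Bool.false_eq_true, if_false, Bool.false_xor, orc_code]
    exact fun h h' => h.1.trans h'.1.symm

/-- Two pairs of parameters agree below length `l`. -/
def Agr (l : ℕ) (θ : Lang) (κ : List Bool → List Bool) (θ' : Lang)
    (κ' : List Bool → List Bool) : Prop :=
  (∀ s, s.length < l → θ s = θ' s) ∧ ∀ u, u.length < l → κ u = κ' u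

theorem Agr.orc {l : ℕ} {θ θ' : Lang} {κ κ' : List Bool → List Bool} (h : Agr l θ κ θ' κ')
    (mc : Enum) (s : List Bool) (hs : s.length < l) : orc mc θ κ s = orc mc θ' κ' s := by
  induction hn : s.length using Nat.strong_induction_on generalizing s with
  | _ n ih =>
    by_cases hc : ∃ u w, s = ad u w 1
    · obtain ⟨u, w, rfl⟩ := hc
      have h1 := le_length_ad u w 1
      rw [Bool.eq_iff_iff, orc_code, orc_code, key, key, h.2 u (by omega),
        yes_congr mc u fun v hv => ih _ (by omega) v (by omega) rfl]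
    · rw [orc_base _ _ _ hc, orc_base _ _ _ hc, h.1 s hs]

/-- The questions of one stage. -/
def Reg (n T : ℕ) : Type := {u : List Bool // n ≤ u.length ∧ u.length < T}

instance (n T : ℕ) : DecidableEq (Reg n T) := inferInstanceAs (DecidableEq (Subtype _))

instance (n T : ℕ) : Fintype (Reg n T) :=
  Fintype.subtype ((lists T).filter fun u => n ≤ u.length ∧ u.length < T) fun u => by
    simp only [mem_filter, mem_lists]
    omega

theorem card_reg {n T l : ℕ} (X : Finset (Reg n T)) (h : ∀ R ∈ X, R.1.length ≤ l) :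
    X.card < 2 ^ (l + 1) :=
  (card_le_card_of_injOn Subtype.val (fun R hR => mem_coe.2 (mem_lists.2 (h R hR)))
    Subtype.val_injective.injOn).trans_lt (card_lists l)

theorem stage_core (mc : Enum) {V : Type} [Fintype V] [DecidableEq V] (f G : Lang → Bool)
    (x : List Bool) (e : V → List Bool) (he : Injective e) {j B a : ℕ}
    (hloc : ∀ A A' : Lang, (∀ v, v.length ≤ B → A v = A' v) → f A = f A')
    (hAC : ∀ (V' : Type) (σ : (V' → Bool) → Lang), (∀ v, DT 1 fun z => σ z v) →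
      AC B (2 ^ B) j {fun z => f (σ z)})
    (hG : ∀ A A' : Lang, (∀ i, (ad x i 0).length ≤ B → A (ad x i 0) = A' (ad x i 0)) → G A = G A')
    (hB : B + 1 < 2 ^ a) (hV : Fintype.card V < 2 ^ 2 ^ a) (hn : (a + 2) ^ 4 ≤ x.length)
    (θ : Lang) (κ : List Bool → List Bool)
    (hard : ∀ N, 1 ≤ N → N < 2 ^ 2 ^ (a + 2) ^ 4 → ¬AC (2 ^ (a + 2) ^ 4) N (j + 4)
      {fun z => G (extend (fun v => ad x (e v) 0) z θ)}) :
    ∃ θ' κ', Agr x.length θ κ θ' κ' ∧ ∀ θ'' κ'', Agr (B + 1) θ' κ' θ'' κ'' →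
      f (orc mc θ'' κ'') ≠ G (orc mc θ'' κ'') := by
  classical
  set n := x.length
  let Key : Reg n (B + 1) → Type := fun R => List.Vector Bool (3 * R.1.length)
  let bp : V → List Bool := fun v => ad x (e v) 0
  let cp : (Σ R, Key R) → List Bool := fun l => ad l.1.1 l.2.1 1
  have hbp : Injective bp := fun v v' h => he (ad_inj h).2.1
  have hcp : Injective cp := by
    rintro ⟨R, w⟩ ⟨R', w'⟩ h
    obtain rfl : R = R' := Subtype.ext (ad_inj h).1
    rw [show w = w' from Subtype.ext (ad_inj h).2.1]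
  let κk : (∀ R, Key R) → List Bool → List Bool := fun k u =>
    if h : n ≤ u.length ∧ u.length < B + 1 then (k ⟨u, h⟩).1 else κ u
  have hκ : ∀ k (R : Reg n (B + 1)), key (κk k) R.1 = (k R).1 := fun k R => by
    simp only [key, κk, dif_pos R.2]
    exact List.take_of_length_le (k R).2.le
  let A : (V → Bool) → (∀ R, Key R) → Lang := fun z k => orc mc (extend bp z θ) (κk k)
  let acc : (V → Bool) → (∀ R, Key R) → Reg n (B + 1) → Prop := fun z k R => yes mc R.1 (A z k)
  have hag : ∀ z k, Agr n θ κ (extend bp z θ) (κk k) := fun z k =>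
    ⟨fun s hs => (extend_apply' _ _ _ fun ⟨v, h⟩ => by
      have := le_length_ad x (e v) 0
      rw [← h] at hs
      exact absurd hs (not_lt.2 this)).symm, fun u hu => by
        simp only [κk, dif_neg (show ¬(n ≤ u.length ∧ u.length < B + 1) by omega)]⟩
  have hbit : ∀ z k l, A z k (cp l) = true ↔ bit acc z k l := fun z k l => by
    rw [orc_code, hκ]
    exact and_congr_left fun _ => ⟨fun h => Subtype.ext h.symm, fun h => by rw [h]⟩
  have hbase : ∀ z k v, A z k (bp v) = z v := fun z k v =>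
    (orc_row _ _ _ _ _).trans (hbp.extend_apply _ _ v)
  have hoth : ∀ z k z' k' s, s.length ≤ B → (∀ v, bp v ≠ s) → (∀ R, cp ⟨R, k R⟩ ≠ s) →
      (∀ R, cp ⟨R, k' R⟩ ≠ s) → A z k s = A z' k' s := by
    intro z k z' k' s h1 h2 h3 h4
    by_cases hc : ∃ u w, s = ad u w 1
    · obtain ⟨u, w, rfl⟩ := hc
      have h5 := le_length_ad u w 1
      rw [Bool.eq_iff_iff, orc_code, orc_code]
      by_cases h6 : n ≤ u.length
      · let R : Reg n (B + 1) := ⟨u, h6, by omega⟩
        exact iff_of_false (fun h => h3 R (by rw [h.1, hκ k R])) fun h => h4 R (by rw [h.1, hκ k' R])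
      · rw [key, key, ← (hag z k).2 u (by omega), ← (hag z' k').2 u (by omega), yes_congr mc u
          fun v hv => ((hag z k).orc mc v (by omega)).symm.trans ((hag z' k').orc mc v (by omega))]
    · have h5 : ¬∃ v, bp v = s := fun ⟨v, h⟩ => h2 v h
      simp only [A, orc_base _ _ _ hc, extend_apply' _ _ _ h5]
  have ha : 16 ≤ (a + 2) ^ 4 := Nat.pow_le_pow_left (by omega : 2 ≤ a + 2) 4
  let lev : Reg n (B + 1) → ℕ := fun R => Nat.log 2 R.1.length
  have hlev : ∀ (l : Σ R, Key R) (R : Reg n (B + 1)), (cp l).length < R.1.length →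
      lev l.1 < lev R := by
    intro l R h
    have h1 := l.1.2.1
    simp only [cp, ad, length_enc_pair, PolyT.Poly.enc_bools_length] at h
    exact (Nat.log_mul_base (by norm_num) (by omega)).ge.trans
      (Nat.log_mono_right (by omega : l.1.1.length * 2 ≤ R.1.length))
  have hsys : Sys acc lev (B + 1) := by
    intro z k R h
    obtain ⟨D, h1, h2, h3⟩ := yes_cert h
    have h4 := R.2.2
    have h5 : ∀ {α : Type} (g : α → List Bool) (X : Finset α), Injective g → (∀ v ∈ X, g v ∈ D) →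
        X.card ≤ B + 1 := fun g X hg hX =>
      (card_le_card_of_injOn g (fun v hv => mem_coe.2 (hX v hv)) hg.injOn).trans (by omega)
    refine ⟨univ.filter (bp · ∈ D), (univ.filter fun l => cp l ∈ D ∧ bit acc z k l,
      univ.filter fun l => cp l ∈ D ∧ ¬bit acc z k l),
      h5 bp _ hbp fun v hv => (mem_filter.1 hv).2, h5 cp _ hcp fun v hv => (mem_filter.1 hv).2.1,
      h5 cp _ hcp fun v hv => (mem_filter.1 hv).2.1,
      fun l hl => ⟨hlev l R (h2 _ (mem_filter.1 hl).2.1), (mem_filter.1 hl).2.2⟩,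
      fun l hl => ⟨hlev l R (h2 _ (mem_filter.1 hl).2.1), (mem_filter.1 hl).2.2⟩,
      fun z' k' e1 e2 e3 => h3 _ fun s hs => ?_⟩
    by_cases c1 : ∃ v, bp v = s
    · obtain ⟨v, rfl⟩ := c1
      rw [hbase, hbase, e1 v (mem_filter.2 ⟨mem_univ _, hs⟩)]
    by_cases c2 : ∃ l, cp l = s
    · obtain ⟨l, rfl⟩ := c2
      rw [Bool.eq_iff_iff, hbit, hbit]
      exact ⟨fun h => by_contra fun h' => e3 l (mem_filter.2 ⟨mem_univ _, hs, h'⟩) h,
        fun h => e2 l (mem_filter.2 ⟨mem_univ _, hs, h⟩)⟩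
    · exact hoth _ _ _ _ s (by have := h2 s hs; omega) (fun v h => c1 ⟨v, h⟩)
        (fun R h => c2 ⟨_, h⟩) fun R h => c2 ⟨_, h⟩
  let ps : (∀ R, Key R) → V ⊕ Reg n (B + 1) → List Bool := fun k =>
    Sum.elim bp fun R => cp ⟨R, k R⟩
  have hps : ∀ k, Injective (ps k) := fun k => hbp.sumElim
    (fun R R' h => congrArg Sigma.fst (hcp h)) fun v R h => by simpa using (ad_inj h).2.2
  have hσ : ∀ k s, DT 1 fun y => extend (ps k) y (A (fun _ => false) k) s := by
    intro k s
    by_cases h : ∃ v, ps k v = s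
    · obtain ⟨v, rfl⟩ := h
      exact (dt_var v).congr fun y => ((hps k).extend_apply _ _ v).symm
    · exact (DTq.const 1 _).congr fun y => (extend_apply' _ _ _ h).symm
  have hf : ∀ z k, f (extend (ps k) (Sum.elim z fun R => decide (acc z k R))
      (A (fun _ => false) k)) = f (A z k) := by
    refine fun z k => hloc _ _ fun s hs => ?_
    by_cases h : ∃ v, ps k v = s
    · obtain ⟨v, rfl⟩ := h
      rw [(hps k).extend_apply]
      rcases v with v | R
      · exact (hbase z k v).symm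
      · refine Bool.eq_iff_iff.2 (decide_eq_true_iff.trans ?_)
        exact ⟨fun h => (hbit z k _).2 ⟨rfl, h⟩, fun h => ((hbit z k _).1 h).2⟩
    · rw [extend_apply' _ _ _ h]
      exact hoth _ _ _ _ s hs (fun v e => h ⟨.inl v, e⟩) (fun R e => h ⟨.inr R, e⟩)
        fun R e => h ⟨.inr R, e⟩
  obtain ⟨z, k, hzk⟩ : ∃ z k, f (A z k) ≠ G (extend bp z θ) := by
    by_contra hc
    push Not at hc
    have p2 : ∀ {b c : ℕ}, b ≤ c → 2 ^ b ≤ 2 ^ c := fun h => Nat.pow_le_pow_right two_pos h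
    have e1 : (2 ^ (a + 1)) ^ a = 2 ^ ((a + 1) * a) := (pow_mul _ _ _).symm
    have e2 : (2 * (2 ^ ((a + 1) * a + a + 4)) ^ a) ^ a =
        2 ^ ((((a + 1) * a + a + 4) * a + 1) * a) := by
      rw [← pow_mul, ← pow_succ', ← pow_mul]
    set b := (((a + 1) * a + a + 4) * a + 1) * a with hb
    have e3 : a + b + 4 ≤ (a + 2) ^ 4 := by
      rw [hb]
      nlinarith [Nat.zero_le (a ^ 2), Nat.zero_le (a ^ 3)]
    have e4 : (a + 1) * a ≤ b := Nat.mul_le_mul_right _ (by nlinarith)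
    have e5 : a < 2 ^ a := Nat.lt_two_pow_self
    have e6 : 1 ≤ 2 ^ b := Nat.one_le_two_pow
    refine hard _ ?_ ?_ (simulate (g := 2 ^ (a + 1)) (L := a) (m := 2 ^ a)
      (q := 2 ^ ((a + 1) * a + a + 4)) (N := 2 ^ (2 ^ a + 1 + (2 ^ a + 1) * 2 ^ b)) hsys
      (by rw [pow_succ]; omega) Nat.one_le_two_pow (fun R => ?_) ?_ ?_ ?_
      (Nat.pow_le_pow_left (p2 (by omega)) _) (fun R => ?_) ?_ ?_ (by rw [e2])
      (fun k y => f (extend (ps k) y (A (fun _ => false) k)))
      (fun k => ac_up (hAC _ _ (hσ k)) ?_ (p2 (by omega))) _ fun z k => (hf z k).trans (hc z k))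
    · exact Nat.mul_pos (by positivity) Nat.one_le_two_pow
    · have h1 : 4 * (Fintype.card V + 1) ≤ 2 ^ (2 + 2 ^ a) := by rw [pow_add]; omega
      refine (Nat.mul_le_mul_right _ h1).trans_lt ?_
      rw [← pow_add]
      refine Nat.pow_lt_pow_right (by norm_num) (lt_of_lt_of_le ?_ (p2 e3))
      have h2 : 1 ≤ 2 ^ a := Nat.one_le_two_pow
      rw [pow_add, pow_add]
      nlinarith
    · have h1 := R.2
      exact Nat.log_lt_of_lt_pow (by omega) (by omega)
    · exact (card_reg univ fun R _ => Nat.lt_succ_iff.1 R.2.2).trans_le (p2 (by omega))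
    · exact (show 2 * a ≤ 2 ^ (a + 1) by rw [pow_succ]; omega).trans (p2 e5)
    · have h1 : 1 ≤ 2 ^ a := Nat.one_le_two_pow
      have h2 : 1 ≤ 2 ^ ((a + 1) * a) := Nat.one_le_two_pow
      rw [e1, pow_add, pow_add]
      nlinarith
    · have h1 := R.2.1
      have h2 := card_reg (l := 2 * R.1.length - 1) {R' | lev R' = lev R} fun R' hR' => by
        have h3 := Nat.lt_pow_succ_log_self (b := 2) (by norm_num) R'.1.length
        have h4 := Nat.pow_log_le_self 2 (x := R.1.length) (by omega)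
        rw [show Nat.log 2 R'.1.length = Nat.log 2 R.1.length from (mem_filter.1 hR').2,
          pow_succ] at h3
        omega
      rw [card_vector, Fintype.card_bool, e1, ← pow_succ']
      refine (Nat.mul_le_mul_left _ h2.le).trans ?_
      rw [← pow_add]
      exact p2 (by omega)
    · rw [e2, ← pow_succ']
      exact p2 (by omega)
    · rw [e1]
      exact p2 (by omega)
    · exact (by omega : B ≤ 2 ^ a).trans (p2 (by omega))
  refine ⟨_, _, hag z k, fun θ'' κ'' h => ?_⟩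
  rwa [← hloc _ _ fun v hv => h.orc mc v (by omega),
    ← hG (extend bp z θ) _ fun i hi => (orc_row mc _ _ x i).symm.trans (h.orc mc _ (by omega))]

end Pool.Agent.MP_a2d820_lc.h31u

end MrgPart3

-- ======== part 4: formerly Pool.Agent.MP_a2d820_lc.h31u.Final
section MrgPart4

/-!
The two kinds of stages and their limit.
-/

set_option autoImplicit false

namespace Pool.Agent.MP_a2d820_lc.h31u

open Pool.Agent.MP_a2d820_lc.h69 Pool.Agent.PolyT Pool.Agent.H82 N487b59b3 Function Finset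

theorem width_le {k c r : ℕ} (h : (2 * k + 1) * c + 5 ≤ r) :
    24 * ((2 ^ c * 2 ^ c) ^ k * 2 ^ c) ≤ 2 ^ r := by
  refine le_trans ?_ (Nat.pow_le_pow_right two_pos h)
  rw [← pow_add, ← pow_mul, ← pow_add, pow_add _ _ 5, show (c + c) * k + c = (2 * k + 1) * c by ring]
  omega

theorem sel_empty (t R k : ℕ) (T : Finset Empty) : Sel Unit t R (fun _ => True) k T := by
  induction k generalizing T with
  | zero => trivial
  | succ k ih =>
    refine ⟨fun _ => ∅, fun D _ => ?_, fun _ => ⟨empty_subset _, ih _⟩⟩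
    obtain rfl : D = ∅ := Subsingleton.elim _ _
    simp

theorem hard_nv {k c r n N : ℕ} (h1 : (2 * k + 1) * c + 5 ≤ r) (h2 : (k + 1) * n + 2 ≤ 2 ^ r)
    (h3 : 3 * r ≤ n) (hN1 : 1 ≤ N) (hN : N < 2 ^ 2 ^ c) :
    ¬AC (2 ^ c) N k {fun z : Empty ⊕ Node ((k + 1) * n) → Bool =>
      nv n (k + 1) (ext univ (z ∘ Sum.inr)) []} := by
  intro h
  obtain ⟨T, y, a, b, -, h4, h5⟩ := exists_diff Nat.one_le_two_pow hN hN1 k le_rfl (width_le h1)
    (by omega) ((Nat.mul_le_mul_left _ h2).trans (by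
      rw [← pow_add]
      exact Nat.pow_le_pow_right two_pos (by omega))) _ h (sel_empty _ _ _ _)
  exact h5 (h4 fun _ => false)

theorem sel_grid {J : Type} [Fintype J] [DecidableEq J] [Inhabited J] (K t m i : ℕ)
    (hi : m + i = K) (T : Finset (Fin K → J))
    (h1 : ∀ v ∈ T, ∀ v' ∈ T, (∀ a : Fin K, i ≤ a → v a = v' a) → v = v')
    (h2 : ∀ v : Fin K → J, ∃ v' ∈ T, ∀ a : Fin K, i ≤ a → v' a = v a) :
    Sel ((Fin K → J) → J) t (Fintype.card J) Finset.Nonempty m T := by
  induction m generalizing i T with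
  | zero =>
    obtain ⟨v, hv, -⟩ := h2 default
    exact ⟨v, hv⟩
  | succ m ih =>
    let I : Fin K := ⟨i, by omega⟩
    let grp : (Fin K → J) → Fin K → J := fun v a => if i < a then v a else default
    have h3 : ∀ v v' : Fin K → J, (∀ a : Fin K, i + 1 ≤ a → v a = v' a) → grp v = grp v' :=
      fun v v' h => funext fun a => if_congr Iff.rfl rfl rfl |>.trans
        (ite_congr rfl (fun ha => h a ha) fun _ => rfl)
    have h4 : ∀ v ∈ T, ∀ v' ∈ T, grp v = grp v' → v I = v' I → v = v' := by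
      refine fun v hv v' hv' e e' => h1 v hv v' hv' fun a ha => ?_
      rcases ha.lt_or_eq with ha | ha
      · simpa [grp, ha] using congrFun e a
      · rwa [show a = I from Fin.ext ha.symm]
    refine ⟨_, subInd_key T grp (fun v => v I) h4 t, fun ω => ⟨filter_subset _ _,
      ih (i + 1) (by omega) _ (fun v hv v' hv' h => ?_) fun v => ?_⟩⟩
    · obtain ⟨a1, a2⟩ := mem_filter.1 hv
      obtain ⟨a3, a4⟩ := mem_filter.1 hv'
      exact h4 v a1 v' a3 (h3 _ _ h) (by rw [← a2, ← a4, h3 _ _ h])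
    · obtain ⟨v', a1, a2⟩ := h2 (update v I (ω (grp v)))
      have a3 : ∀ a : Fin K, i + 1 ≤ a → v' a = v a := fun a ha => (a2 a (by omega)).trans
        (update_of_ne (fun e => by rw [e] at ha; simp [I] at ha) _ _)
      exact ⟨v', mem_filter.2 ⟨a1, by rw [h3 _ _ a3, a2 I le_rfl, update_self]⟩, a3⟩

theorem hard_par {k c r N : ℕ} (h1 : (2 * k + 1) * c + 5 ≤ r) (hN1 : 1 ≤ N) (hN : N < 2 ^ 2 ^ c)
    (F : ((Fin (k + 1) → Fin r → Bool) → Bool) → Bool)
    (hF : ∀ z z' v, (∀ v', v' ≠ v → z v' = z' v') → z v = !z' v → F z = !F z') :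
    ¬AC (2 ^ c) N k {F} := by
  intro h
  have h2 : 12 * ((2 ^ c * 2 ^ c) ^ k * 2 ^ c) ≤ Fintype.card (Fin r → Bool) := by
    have := width_le h1
    simp only [Fintype.card_fun, Fintype.card_bool, Fintype.card_fin]
    omega
  obtain ⟨T, y, b, ⟨v, hv⟩, h3⟩ := exists_const Nat.one_le_two_pow hN hN1 k le_rfl h2 univ F h
    (sel_grid (k + 1) _ (k + 1) 0 rfl univ (fun v _ v' _ h => funext fun a => h a (by omega))
      fun v => ⟨v, mem_univ _, fun _ _ => rfl⟩)
  have h4 := hF (res T y fun _ => true) (res T y (update (fun _ => true) v false)) v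
    (fun v' h => by
      by_cases h' : v' ∈ T
      · rw [res_of_mem h', res_of_mem h', update_of_ne h]
      · rw [res_of_notMem h', res_of_notMem h'])
    (by rw [res_of_mem hv, res_of_mem hv, update_self]; rfl)
  rw [h3, h3] at h4
  simp at h4

theorem exists_params (B : Polynomial ℕ) (k m : ℕ) : ∃ n a r : ℕ, m ≤ n ∧ B.eval n + 1 < 2 ^ a ∧
    (2 * k + 1) * (a + 2) ^ 4 + 5 ≤ r ∧ (k + 1) * n + 2 ≤ 2 ^ r ∧ (k + 3) * r ≤ n := by
  obtain ⟨c, hc⟩ := poly_le_pow (B + 1)
  obtain ⟨ν, e1, e2⟩ := ((poly_le_two_pow (((k : Polynomial ℕ) + 3) *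
    ((2 * (k : Polynomial ℕ) + 1) * ((Polynomial.X + 1) * (c : Polynomial ℕ) + 1 + 2) ^ 4 + 5 +
      Polynomial.X + (k : Polynomial ℕ) + 2)) 1 one_pos).and
    (Filter.eventually_ge_atTop (m + 1))).exists
  refine ⟨2 ^ ν, (ν + 1) * c + 1, (2 * k + 1) * ((ν + 1) * c + 1 + 2) ^ 4 + 5 + ν + k + 2,
    by have := Nat.lt_two_pow_self (n := ν); omega, ?_, by omega, ?_, by simpa using e1⟩
  · have h1 := hc (2 ^ ν)
    have h2 : 2 ^ 1 ≤ 2 ^ ν := Nat.pow_le_pow_right two_pos (by omega)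
    have h3 : (2 ^ ν + 2) ^ c ≤ (2 ^ (ν + 1)) ^ c :=
      Nat.pow_le_pow_left (by rw [pow_succ]; omega) _
    have h4 : 0 < (2 ^ (ν + 1)) ^ c := by positivity
    simp only [Polynomial.eval_add, Polynomial.eval_one] at h1
    rw [pow_succ, pow_mul]
    omega
  · have h1 : (k + 1) * 2 ^ ν ≤ 2 ^ k * 2 ^ ν := Nat.mul_le_mul_right _ Nat.lt_two_pow_self
    have h2 : 0 < 2 ^ k * 2 ^ ν := by positivity
    refine le_trans ?_ (Nat.pow_le_pow_right two_pos (show k + ν + 2 ≤ _ by omega))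
    rw [pow_add, pow_add]
    omega

/-- The requirement can be forced after any finite part of the construction. -/
def Forces (mc : Enum) (P : Lang → Prop) : Prop :=
  ∀ m θ κ, ∃ θ' κ', ∃ T > m, Agr m θ κ θ' κ' ∧ ∀ θ'' κ'', Agr T θ' κ' θ'' κ'' → P (orc mc θ'' κ'')

theorem forces (mc : Enum) (b : OM × Polynomial ℕ) (l : List (OM × Polynomial ℕ × Polynomial ℕ))
    (s : Bool) : Forces mc fun A => ∃ x, ev b l A x ≠
      bif s then par A x (2 ^ x.length) else gl A (l.length + 5) x := by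
  intro m θ κ
  obtain ⟨B₀, h1, h2⟩ := ev_bound b l
  set k := l.length + 4 with hk
  obtain ⟨n, a, r, e1, e2, e3, e4, e5⟩ := exists_params (B₀.comp (6 * Polynomial.X + 1) +
    6 * (((k : Polynomial ℕ) + 1) * Polynomial.X) + 6 * Polynomial.X + 2 +
      ((bitEncode (0 : ℕ)).length : Polynomial ℕ)) k m
  simp only [Polynomial.eval_add, Polynomial.eval_comp, Polynomial.eval_mul, Polynomial.eval_ofNat,
    Polynomial.eval_X, Polynomial.eval_one, Polynomial.eval_natCast, Nat.cast_id] at e2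
  set B := B₀.eval (6 * n + 1) + 6 * ((k + 1) * n) + 6 * n + 2 + (bitEncode (0 : ℕ)).length
  set x := List.replicate n false with hx
  have hxn : x.length = n := by simp [hx]
  have hkn : n ≤ (k + 1) * n := Nat.le_mul_of_pos_left _ (by omega)
  have hr : 3 * r ≤ n ∧ (k + 1) * r ≤ n ∧ (a + 2) ^ 4 ≤ n := by
    have := Nat.le_mul_of_pos_left ((a + 2) ^ 4) (show 0 < 2 * k + 1 by omega)
    have := Nat.mul_le_mul_right r (show 3 ≤ k + 3 by omega)
    have := Nat.mul_le_mul_right r (show k + 1 ≤ k + 3 by omega)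
    omega
  have had : ∀ i : List Bool, i.length ≤ (k + 1) * n → (ad x i 0).length ≤ B := by
    intro i hi
    simp only [ad, length_enc_pair, PolyT.Poly.enc_bools_length, hxn]
    omega
  have key : ∀ (V : Type) [Fintype V] [DecidableEq V] (e : V → List Bool) (y : List Bool)
      (G : Lang → Bool), Injective e → y.length ≤ 6 * n + 1 → Fintype.card V < 2 ^ B →
      (∀ A A' : Lang, (∀ i : List Bool, i.length ≤ (k + 1) * n → A (ad x i 0) = A' (ad x i 0)) →
        G A = G A') →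
      (∀ N, 1 ≤ N → N < 2 ^ 2 ^ (a + 2) ^ 4 → ¬AC (2 ^ (a + 2) ^ 4) N k
        {fun z => G (extend (fun v => ad x (e v) 0) z θ)}) →
      ∃ θ' κ', ∃ T > m, Agr m θ κ θ' κ' ∧ ∀ θ'' κ'', Agr T θ' κ' θ'' κ'' →
        ev b l (orc mc θ'' κ'') y ≠ G (orc mc θ'' κ'') := by
    intro V _ _ e y G a1 a2 a3 a4 a5
    obtain ⟨θ', κ', b1, b2⟩ := stage_core mc (fun A => ev b l A y) G x e a1 (B := B)
      (fun A A' h => h1 A A' y _ a2 fun v hv => h v (by omega))
      (fun V' σ hσ => (h2 V' σ _ _ _ hσ (by omega) (Nat.pow_le_pow_right two_pos (by omega))).mono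
        (Set.singleton_subset_iff.2 ⟨y, a2, rfl⟩))
      (fun A A' h => a4 A A' fun i hi => h i (had i hi)) e2
      (a3.trans_le (Nat.pow_le_pow_right two_pos (by omega))) (by omega) θ κ a5
    exact ⟨θ', κ', B + 1, by omega, ⟨fun s hs => b1.1 s (by omega), fun s hs => b1.2 s (by omega)⟩,
      b2⟩
  cases s
  · let e : Empty ⊕ Node ((k + 1) * n) → List Bool := Sum.elim Empty.elim Subtype.val
    have he : Injective e := by
      rintro (a | a) (b | b) h
      · exact a.elim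
      · exact a.elim
      · exact b.elim
      · exact congrArg _ (Subtype.ext h)
    obtain ⟨θ', κ', T, b1, b2, b3⟩ := key _ e (bitEncode (x, ([] : List Bool)))
      (fun A => gl A (k + 1) (bitEncode (x, ([] : List Bool)))) he
      (by simp only [length_enc_pair, PolyT.Poly.enc_bools_length, hxn, List.length_nil]; omega)
      (by
        rw [Fintype.card_sum, Fintype.card_empty, zero_add]
        exact (card_node _).trans_le (Nat.pow_le_pow_right two_pos (by omega)))
      (fun A A' h => by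
        simp only [gl_enc, hxn]
        exact nv_congr fun i hi => h i (by simpa using hi.le))
      fun N a1 a2 h => hard_nv e3 e4 hr.1 a1 a2 (h.mono (Set.singleton_subset_singleton.2
        (funext fun z => by
          simp only [gl_enc, hxn]
          refine nv_congr fun i hi => ?_
          let J : Node ((k + 1) * n) := ⟨i, by simpa using hi.le⟩
          exact ((ext_node _ _ J).trans (if_pos (mem_univ J))).trans
            ((show Injective fun v => ad x (e v) 0 from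
              fun _ _ h => he (ad_inj h).2.1).extend_apply z θ (.inr J)).symm)))
    exact ⟨θ', κ', T, b1, b2, fun θ'' κ'' h => ⟨_, b3 θ'' κ'' h⟩⟩
  · obtain ⟨ε⟩ : Nonempty ((Fin (k + 1) → Fin r → Bool) ↪ List.Vector Bool n) :=
      Embedding.nonempty_of_card_le (by
        simp only [card_vector, Fintype.card_fun, Fintype.card_bool, Fintype.card_fin, ← pow_mul]
        exact Nat.pow_le_pow_right two_pos (by rw [mul_comm]; exact hr.2.1))
    have he : Injective fun v => (ε v).1 := Subtype.val_injective.comp ε.injective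
    have he' : Injective fun v => ad x (ε v).1 0 := fun _ _ h => he (ad_inj h).2.1
    obtain ⟨θ', κ', T, b1, b2, b3⟩ := key _ _ x (fun A => par A x (2 ^ x.length)) he (by omega)
      (by
        refine (Fintype.card_le_of_embedding ε).trans_lt ?_
        rw [card_vector, Fintype.card_bool]
        exact Nat.pow_lt_pow_right (by norm_num) (by omega))
      (fun A A' h => par_congr (fun i hi => h i (by omega)) _)
      fun N a1 a2 => hard_par e3 a1 a2 _ fun z z' v c1 c2 => par_flip (j₀ := (ε v).1)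
        ((ε v).2.trans hxn.symm) (fun i hi => by
          by_cases h : ∃ v', ad x (ε v').1 0 = ad x i 0
          · obtain ⟨v', h⟩ := h
            rw [← h, he'.extend_apply, he'.extend_apply,
              c1 v' fun e => hi (e ▸ (ad_inj h).2.1.symm)]
          · rw [extend_apply' _ _ _ h, extend_apply' _ _ _ h])
        (by rw [he'.extend_apply, he'.extend_apply, c2])
    exact ⟨θ', κ', T, b1, b2, fun θ'' κ'' h => ⟨_, b3 θ'' κ'' h⟩⟩

theorem exists_lim (mc : Enum) (P : ℕ → Lang → Prop) (hP : ∀ i, Forces mc (P i)) :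
    ∃ θ κ, ∀ i, P i (orc mc θ κ) := by
  choose F₁ F₂ F₃ h1 h2 h3 using hP
  let a : ℕ → ℕ × Lang × (List Bool → List Bool) := fun i =>
    Nat.rec (0, fun _ => false, id)
      (fun i a => (F₃ i a.1 a.2.1 a.2.2, F₁ i a.1 a.2.1 a.2.2, F₂ i a.1 a.2.1 a.2.2)) i
  have hmono : StrictMono fun i => (a i).1 := strictMono_nat_of_lt_succ fun i => h1 i _ _ _
  have hag : ∀ i j, i ≤ j → Agr (a i).1 (a i).2.1 (a i).2.2 (a j).2.1 (a j).2.2 := by
    intro i j hij
    induction j, hij using Nat.le_induction with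
    | base => exact ⟨fun _ _ => rfl, fun _ _ => rfl⟩
    | succ j hij ih =>
      have h4 := h2 j (a j).1 (a j).2.1 (a j).2.2
      have h5 := hmono.monotone hij
      exact ⟨fun w hw => (ih.1 w hw).trans (h4.1 w (hw.trans_le h5)),
        fun w hw => (ih.2 w hw).trans (h4.2 w (hw.trans_le h5))⟩
  refine ⟨fun w => (a (w.length + 1)).2.1 w, fun w => (a (w.length + 1)).2.2 w, fun i =>
    h3 i (a i).1 (a i).2.1 (a i).2.2 _ _ ⟨fun w hw => ?_, fun w hw => ?_⟩⟩
  · rcases le_total (i + 1) (w.length + 1) with h | h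
    · exact (hag _ _ h).1 w hw
    · exact ((hag _ _ h).1 w (hmono.le_apply (x := w.length + 1))).symm
  · rcases le_total (i + 1) (w.length + 1) with h | h
    · exact (hag _ _ h).2 w hw
    · exact ((hag _ _ h).2 w (hmono.le_apply (x := w.length + 1))).symm

theorem collapse {A : Lang} {k : ℕ} (h : RelSigma A (k + 1) ⊆ RelSigma A k) (m : ℕ) :
    RelSigma A (k + m) ⊆ RelSigma A k := by
  have key : ∀ m, RelSigma A (k + m + 1) ⊆ RelSigma A (k + m) := by
    intro m
    induction m with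
    | zero => exact h
    | succ m ih => exact fun L ⟨B, h1, h2⟩ => ⟨B, ih h1, h2⟩
  induction m with
  | zero => exact subset_rfl
  | succ m ih => exact (key m).trans ih

theorem exists_oracle (mc : Enum) : ∃ θ κ,
    (∀ k, ∃ L ∈ RelSigma (orc mc θ κ) (k + 1), L ∉ RelSigma (orc mc θ κ) k) ∧
      ∃ L ∈ RelPSPACE (orc mc θ κ), ∀ k, L ∉ RelSigma (orc mc θ κ) k := by
  obtain ⟨τ, hτ⟩ := exists_surjective_nat
    (Bool × (OM × Polynomial ℕ) × List (OM × Polynomial ℕ × Polynomial ℕ))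
  obtain ⟨θ, κ, h⟩ := exists_lim mc _ fun i => forces mc (τ i).2.1 (τ i).2.2 (τ i).1
  refine ⟨θ, κ, fun k => Set.not_subset.1 fun hk => ?_, _, par_mem _, fun k hk => ?_⟩
  · obtain ⟨b, l, rfl, e⟩ := exists_ev' (collapse hk 5 (gl_mem _ _))
    obtain ⟨i, hi⟩ := hτ (false, b, l)
    obtain ⟨x, hx⟩ := h i
    rw [hi] at hx
    exact hx (congrFun e x).symm
  · obtain ⟨b, l, e⟩ := exists_ev hk
    obtain ⟨i, hi⟩ := hτ (true, b, l)
    obtain ⟨x, hx⟩ := h i
    rw [hi] at hx
    exact hx (congrFun e x).symm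

end Pool.Agent.MP_a2d820_lc.h31u

end MrgPart4

-- marker of a merged file
example : 731051 + 578749 = 731051 + 578749 := rfl
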